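import Pool.Agent.Run7.h748.Main

/-!
Consequences for the two never cardinals.
-/

namespace Run7.h748

open Cardinal MeasureTheory Filter

theorem dom_of_or {A : Set (Set ℕ)} (hA : IsAD A)
    (h : PropertyA (Psi A) ∨ CtblyParacompact (Psi A)) : Dom A :=
  h.elim (dom_of_propertyA hA) (dom_of_ctblyParacompact hA)

theorem va_vcp_le {κ : Cardinal.{0}} (h : ∀ A : Set (Set ℕ), #A = κ → ¬ Dom A) :
    va ≤ κ ∧ vcp ≤ κ := by
  constructor
  · refine csInf_le' ?_
    intro A hA hκ hP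
    exact h A hκ (dom_of_propertyA hA hP)
  · refine csInf_le' ?_
    intro A hA hκ hP
    exact h A hκ (dom_of_ctblyParacompact hA hP)

/-- The least size of a subset of the Cantor space that is not null for the coin tossing
measure. -/
noncomputable def nonN : Cardinal.{0} :=
  sInf {κ | ∃ X : Set (ℕ → Bool), #X = κ ∧ cantorMeasure X ≠ 0}

/-- The least size of a nonmeager subset of the Cantor space. -/
noncomputable def nonM : Cardinal.{0} := sInf {κ | ∃ X : Set (ℕ → Bool), #X = κ ∧ ¬ IsMeagre X}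

theorem nonE_le_nonN : nonE ≤ nonN := by
  have hne : {κ : Cardinal.{0} | ∃ X : Set (ℕ → Bool), #X = κ ∧ cantorMeasure X ≠ 0}.Nonempty :=
    ⟨_, Set.univ, rfl, by simp⟩
  obtain ⟨X, hX, hnull⟩ := csInf_mem hne
  change #X = nonN at hX
  rw [← hX]
  refine csInf_le' ⟨X, rfl, ?_⟩
  rintro ⟨K, hK, hcov⟩
  exact hnull (measure_mono_null hcov (measure_iUnion_null fun n => (hK n).2))

theorem cantor_agree (f : ℕ) (y : ℕ → Bool) :
    cantorMeasure {x | ∀ i < f, x i = y i} = (2⁻¹ : ENNReal) ^ f := cantor_cylinder f y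

theorem nonSN_le_nonN : nonSN ≤ nonN := by
  have hne : {κ : Cardinal.{0} | ∃ X : Set (ℕ → Bool), #X = κ ∧ cantorMeasure X ≠ 0}.Nonempty :=
    ⟨_, Set.univ, rfl, by simp⟩
  obtain ⟨X, hX, hnull⟩ := csInf_mem hne
  change #X = nonN at hX
  rw [← hX]
  refine csInf_le' ⟨X, rfl, ?_⟩
  intro hsn
  apply hnull
  -- the measure of `X` is at most `2 ^ (-k)` for each `k`
  have hk : ∀ k : ℕ, cantorMeasure X ≤ (2⁻¹ : ENNReal) ^ k := by
    intro k
    obtain ⟨y, hy⟩ := hsn (fun n => n + 1 + k)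
    have hsub : X ⊆ ⋃ n, {x | ∀ i < n + 1 + k, x i = y n i} := by
      intro x hx
      obtain ⟨n, hn⟩ := hy x hx
      exact Set.mem_iUnion.2 ⟨n, hn⟩
    calc cantorMeasure X ≤ cantorMeasure (⋃ n, {x | ∀ i < n + 1 + k, x i = y n i}) :=
          measure_mono hsub
      _ ≤ ∑' n, cantorMeasure {x | ∀ i < n + 1 + k, x i = y n i} := measure_iUnion_le _
      _ = ∑' n : ℕ, (2⁻¹ : ENNReal) ^ (n + 1 + k) := by
          congr 1; funext n; exact cantor_agree _ _
      _ = (∑' n : ℕ, (2⁻¹ : ENNReal) ^ (n + 1)) * (2⁻¹ : ENNReal) ^ k := by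
          rw [← ENNReal.tsum_mul_right]
          congr 1; funext n; rw [pow_add]
      _ = (2⁻¹ : ENNReal) ^ k := by
          rw [ENNReal.tsum_geometric_add_one]
          simp [ENNReal.inv_mul_cancel]
  have hlim : Filter.Tendsto (fun k : ℕ => (2⁻¹ : ENNReal) ^ k) Filter.atTop (nhds 0) :=
    ENNReal.tendsto_pow_atTop_nhds_zero_of_lt_one (by norm_num)
  exact le_antisymm (ge_of_tendsto' hlim hk) bot_le

theorem cantor_open_pos {U : Set (ℕ → Bool)} (hU : IsOpen U) (hne : U.Nonempty) :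
    cantorMeasure U ≠ 0 := by
  obtain ⟨x, hx⟩ := hne
  -- a cylinder inside `U`
  have hex : ∃ N, {u : ℕ → Bool | ∀ r < N, u r = x r} ⊆ U := by
    rw [isOpen_pi_iff] at hU
    obtain ⟨I, u, hu, hsub⟩ := hU x hx
    refine ⟨I.sup id + 1, fun v hv => hsub ?_⟩
    intro i hi
    have : i < I.sup id + 1 := Nat.lt_succ_of_le (Finset.le_sup (f := id) hi)
    rw [hv i this]
    exact (hu i hi).2
  obtain ⟨N, hN⟩ := hex
  intro h0
  have h1 := measure_mono_null hN h0
  rw [cantor_cylinder] at h1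
  simp at h1

theorem nonE_le_nonM : nonE ≤ nonM := by
  have hne : {κ : Cardinal.{0} | ∃ X : Set (ℕ → Bool), #X = κ ∧ ¬ IsMeagre X}.Nonempty := by
    refine ⟨_, Set.univ, rfl, ?_⟩
    intro h
    have h1 : (Set.univ : Set (ℕ → Bool))ᶜ ∈ residual (ℕ → Bool) := h
    have h2 := (dense_of_mem_residual h1).nonempty
    simp at h2
  obtain ⟨X, hX, hm⟩ := csInf_mem hne
  change #X = nonM at hX
  rw [← hX]
  refine csInf_le' ⟨X, rfl, ?_⟩
  rintro ⟨K, hK, hcov⟩
  apply hm
  refine IsMeagre.mono hcov (isMeagre_iUnion fun n => ?_)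
  have hint : interior (K n) = ∅ := by
    by_contra hcon
    have hne : (interior (K n)).Nonempty := Set.nonempty_iff_ne_empty.2 hcon
    exact cantor_open_pos isOpen_interior hne (measure_mono_null interior_subset (hK n).2)
  have hnd : IsNowhereDense (K n) := (hK n).1.isNowhereDense_iff.2 hint
  exact hnd.isMeagre

theorem aleph1_le_bNum : ℵ₁ ≤ bNum := by
  obtain ⟨B, hBc, hB⟩ := exists_bNum
  rw [← hBc]
  by_contra hcon
  push Not at hcon
  have hc : B.Countable := by
    rw [← le_aleph0_iff_set_countable]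
    have : ℵ₁ = Order.succ ℵ₀ := succ_aleph0.symm
    rw [this] at hcon
    exact Order.lt_succ_iff.1 hcon
  apply hB
  by_cases hne : B.Nonempty
  · obtain ⟨u, hu⟩ := hc.exists_eq_range hne
    refine ⟨fun n => (Finset.range (n + 1)).sup (fun i => u i n), ?_⟩
    intro b hb
    rw [hu] at hb
    obtain ⟨i, rfl⟩ := hb
    filter_upwards [eventually_ge_atTop i] with n hn
    exact Finset.le_sup (f := fun i => u i n) (Finset.mem_range.2 (Nat.lt_succ_of_le hn))
  · exact ⟨fun _ => 0, fun b hb => absurd ⟨b, hb⟩ hne⟩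

/-- A cardinal below `ℵ_{ω₁}` of uncountable cofinality is regular. -/
theorem cof_eq_of_lt_aleph_omega1 {l : Cardinal.{0}} (h1 : l < ℵ_ (Ordinal.omega 1))
    (h2 : ℵ₁ ≤ l.ord.cof) : l.ord.cof = l := by
  have hinf : ℵ₀ ≤ l := by
    refine le_trans ?_ (Ordinal.cof_ord_le l)
    exact (aleph0_le_aleph 1).trans h2
  obtain ⟨o, rfl⟩ := mem_range_aleph_iff.2 hinf
  rw [aleph_lt_aleph] at h1
  rcases Ordinal.zero_or_succ_or_isSuccLimit o with rfl | ⟨a, rfl⟩ | ho
  · exfalso
    have : (ℵ_ 0 : Cardinal.{0}).ord.cof ≤ ℵ₀ := by simp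
    exact absurd (h2.trans this) (not_le.2 aleph0_lt_aleph_one)
  · exact (isRegular_aleph_add_one a).cof_ord
  · exfalso
    rw [ord_aleph, Ordinal.cof_omega ho] at h2
    have h3 : o.cof ≤ o.card := Ordinal.cof_le_card o
    have h4 : o.card < ℵ₁ := by
      rw [← lt_ord, ord_aleph]
      exact h1
    exact absurd (h2.trans h3) (not_le.2 h4)

end Run7.h748
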