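import Mathlib

/-!
The fair coin tossing measure on the Cantor space and the measure estimate for random
hashing of finite sets of strings.
-/

namespace Run7.h748

open MeasureTheory ENNReal

/-- The fair coin measure on `Bool`. -/
noncomputable def fairCoin : Measure Bool := (PMF.uniformOfFintype Bool).toMeasure

instance : IsProbabilityMeasure fairCoin := by
  unfold fairCoin; infer_instance

theorem fairCoin_singleton (b : Bool) : fairCoin {b} = 2⁻¹ := by
  unfold fairCoin
  rw [PMF.toMeasure_apply_singleton _ _ (MeasurableSet.singleton b)]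
  simp

/-- The coin tossing measure on the Cantor space `ℕ → Bool`. -/
noncomputable def cantorMeasure : Measure (ℕ → Bool) := Measure.infinitePi fun _ => fairCoin

instance : IsProbabilityMeasure cantorMeasure := by
  unfold cantorMeasure; infer_instance

theorem cantor_cylinder (N : ℕ) (τ : ℕ → Bool) :
    cantorMeasure {u | ∀ r < N, u r = τ r} = (2⁻¹ : ℝ≥0∞) ^ N := by
  have h : {u : ℕ → Bool | ∀ r < N, u r = τ r} =
      Set.pi (Finset.range N : Set ℕ) (fun r => {τ r}) := by
    ext u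
    simp [Set.mem_pi]
  rw [h, cantorMeasure, Measure.infinitePi_pi]
  · simp [fairCoin_singleton]
  · intro i _
    exact MeasurableSet.singleton _

theorem measurableSet_cylinder (N : ℕ) (τ : ℕ → Bool) :
    MeasurableSet {u : ℕ → Bool | ∀ r < N, u r = τ r} := by
  have h : {u : ℕ → Bool | ∀ r < N, u r = τ r} =
      Set.pi (Finset.range N : Set ℕ) (fun r => {τ r}) := by
    ext u
    simp [Set.mem_pi]
  rw [h]
  exact MeasurableSet.pi (Finset.countable_toSet _) fun i _ => MeasurableSet.singleton _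

theorem pow_estimate (N k : ℕ) (hk : 2 ^ N * (N + 1) ≤ k) :
    (2 : ℝ≥0∞) ^ N * (1 - (2⁻¹ : ℝ≥0∞) ^ N) ^ k ≤ 2⁻¹ := by
  have hle : (2⁻¹ : ℝ) ^ N ≤ 1 := pow_le_one₀ (by norm_num) (by norm_num)
  have hreal : (1 - (2⁻¹ : ℝ) ^ N) ^ k ≤ (2⁻¹ : ℝ) ^ (N + 1) := by
    have h0 : (0 : ℝ) ≤ 1 - (2⁻¹ : ℝ) ^ N := by linarith
    have h1 : 1 - (2⁻¹ : ℝ) ^ N ≤ 1 := by
      have : (0 : ℝ) ≤ (2⁻¹ : ℝ) ^ N := by positivity
      linarith
    calc (1 - (2⁻¹ : ℝ) ^ N) ^ k ≤ (1 - (2⁻¹ : ℝ) ^ N) ^ (2 ^ N * (N + 1)) :=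
          pow_le_pow_of_le_one h0 h1 hk
      _ = ((1 - (2⁻¹ : ℝ) ^ N) ^ (2 ^ N)) ^ (N + 1) := by rw [pow_mul]
      _ ≤ (2⁻¹ : ℝ) ^ (N + 1) := by
          refine pow_le_pow_left₀ (pow_nonneg h0 _) ?_ _
          have h2 := Real.one_sub_div_pow_le_exp_neg (n := 2 ^ N) (t := 1)
            (by exact_mod_cast Nat.one_le_two_pow)
          have h3 : (1 : ℝ) / ((2 ^ N : ℕ) : ℝ) = (2⁻¹ : ℝ) ^ N := by
            push_cast
            rw [one_div, inv_pow]
          rw [h3] at h2
          refine h2.trans ?_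
          rw [Real.exp_neg]
          have h4 := Real.exp_one_gt_two
          exact inv_anti₀ (by norm_num) h4.le
  have h5 : (1 - (2⁻¹ : ℝ≥0∞) ^ N) ^ k = ENNReal.ofReal ((1 - (2⁻¹ : ℝ) ^ N) ^ k) := by
    rw [ENNReal.ofReal_pow (by linarith), ENNReal.ofReal_sub _ (by positivity)]
    congr 2
    · simp
    · rw [ENNReal.ofReal_pow (by norm_num), ENNReal.ofReal_inv_of_pos (by norm_num)]
      simp
  rw [h5]
  calc (2 : ℝ≥0∞) ^ N * ENNReal.ofReal ((1 - (2⁻¹ : ℝ) ^ N) ^ k)
      ≤ (2 : ℝ≥0∞) ^ N * ENNReal.ofReal ((2⁻¹ : ℝ) ^ (N + 1)) := by gcongr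
    _ = 2⁻¹ := by
        rw [ENNReal.ofReal_pow (by norm_num), ENNReal.ofReal_inv_of_pos (by norm_num)]
        simp only [ENNReal.ofReal_ofNat]
        rw [pow_succ, ← mul_assoc, ← mul_pow, ENNReal.mul_inv_cancel (by norm_num) (by norm_num)]
        simp

/-- The measure on the space of all hash functions from strings to reals. -/
noncomputable def hashMeasure : Measure (List Bool → (ℕ → Bool)) :=
  Measure.infinitePi fun _ => cantorMeasure

instance : IsProbabilityMeasure hashMeasure := by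
  unfold hashMeasure; infer_instance

/-- The set of hash functions that miss some `N`-bit value on the finite set `T`. -/
def missSet (N : ℕ) (T : Finset (List Bool)) : Set (List Bool → (ℕ → Bool)) :=
  {ω | ∃ τ : ℕ → Bool, ∀ t ∈ T, ¬ ∀ r < N, ω t r = τ r}

theorem missSet_eq (N : ℕ) (T : Finset (List Bool)) :
    missSet N T = ⋃ τ : Fin N → Bool, Set.pi (T : Set (List Bool))
      (fun _ => {u : ℕ → Bool | ∀ r < N, u r = (fun n => if h : n < N then τ ⟨n, h⟩ else true) r}ᶜ) := by
  ext ω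
  simp only [missSet, Set.mem_ofPred_eq, Set.mem_iUnion, Set.mem_pi, Finset.mem_coe,
    Set.mem_compl_iff]
  constructor
  · rintro ⟨τ, hτ⟩
    refine ⟨fun i => τ i, fun t ht hcon => hτ t ht fun r hr => ?_⟩
    rw [hcon r hr, dif_pos hr]
  · rintro ⟨τ, hτ⟩
    exact ⟨_, hτ⟩

theorem measurableSet_missSet (N : ℕ) (T : Finset (List Bool)) :
    MeasurableSet (missSet N T) := by
  rw [missSet_eq]
  refine MeasurableSet.iUnion fun τ => ?_
  exact MeasurableSet.pi (Finset.countable_toSet _)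
    fun i _ => (measurableSet_cylinder N _).compl

theorem hashMeasure_missSet (N : ℕ) (T : Finset (List Bool)) (hT : 2 ^ N * (N + 1) ≤ T.card) :
    hashMeasure (missSet N T) ≤ 2⁻¹ := by
  rw [missSet_eq]
  refine (measure_iUnion_fintype_le _ _).trans ?_
  have h1 : ∀ τ : Fin N → Bool, hashMeasure (Set.pi (T : Set (List Bool))
      (fun _ => {u : ℕ → Bool | ∀ r < N, u r =
        (fun n => if h : n < N then τ ⟨n, h⟩ else true) r}ᶜ)) = (1 - (2⁻¹ : ℝ≥0∞) ^ N) ^ T.card := by
    intro τ
    rw [hashMeasure, Measure.infinitePi_pi]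
    · rw [Finset.prod_const, prob_compl_eq_one_sub (measurableSet_cylinder N _), cantor_cylinder]
    · intro i _
      exact (measurableSet_cylinder N _).compl
  rw [Finset.sum_congr rfl fun τ _ => h1 τ]
  simp only [Finset.sum_const, Finset.card_univ, Fintype.card_pi, Fintype.card_bool,
    Finset.prod_const, Fintype.card_fin, nsmul_eq_mul, Nat.cast_pow, Nat.cast_ofNat]
  exact pow_estimate N T.card hT

/-- The product of countably many hash measures. -/
noncomputable def seqHashMeasure : Measure (ℕ → (List Bool → (ℕ → Bool))) :=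
  Measure.infinitePi fun _ => hashMeasure

theorem seqHash_null (N : ℕ → ℕ) (T : ℕ → Finset (List Bool)) (M : Set ℕ) (hM : M.Infinite)
    (hT : ∀ m ∈ M, 2 ^ N m * (N m + 1) ≤ (T m).card) :
    seqHashMeasure {ω | ∀ m ∈ M, ω m ∈ missSet (N m) (T m)} = 0 := by
  classical
  have hk : ∀ k : ℕ, seqHashMeasure {ω | ∀ m ∈ M, ω m ∈ missSet (N m) (T m)} ≤ 2⁻¹ ^ k := by
    intro k
    obtain ⟨F, hFM, hFk⟩ := hM.exists_subset_card_eq k
    have hsub : {ω : ℕ → (List Bool → (ℕ → Bool)) | ∀ m ∈ M, ω m ∈ missSet (N m) (T m)} ⊆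
        Set.pi (F : Set ℕ) (fun m => missSet (N m) (T m)) := by
      intro ω hω m hm
      exact hω m (hFM hm)
    refine (measure_mono hsub).trans ?_
    rw [seqHashMeasure, Measure.infinitePi_pi]
    · calc ∏ m ∈ F, hashMeasure (missSet (N m) (T m)) ≤ ∏ m ∈ F, (2⁻¹ : ℝ≥0∞) :=
            Finset.prod_le_prod' fun m hm => hashMeasure_missSet _ _ (hT m (hFM hm))
        _ = 2⁻¹ ^ k := by rw [Finset.prod_const, hFk]
    · intro i _
      exact measurableSet_missSet _ _
  have hlim : Filter.Tendsto (fun k : ℕ => (2⁻¹ : ℝ≥0∞) ^ k) Filter.atTop (nhds 0) :=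
    ENNReal.tendsto_pow_atTop_nhds_zero_of_lt_one (by norm_num)
  exact le_antisymm (ge_of_tendsto' hlim hk) bot_le

/-- The coding of triples `(m, t, r)` by natural numbers. -/
def enc (m : ℕ) (t : List Bool) (r : ℕ) : ℕ := Encodable.encode (m, (t, r))

/-- The reading map. -/
def readMap (p : ℕ → Bool) : ℕ → (List Bool → (ℕ → Bool)) := fun m t r => p (enc m t r)

theorem map_readMap : cantorMeasure.map readMap = seqHashMeasure := by
  have h1 : (Measure.infinitePi (fun _ : ℕ => fairCoin)).map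
      (fun (p : ℕ → Bool) (q : ℕ × (List Bool × ℕ)) => p (Encodable.encode q)) =
      Measure.infinitePi (fun _ : ℕ × (List Bool × ℕ) => fairCoin) :=
    Measure.map_infinitePi_infinitePi_of_inj (P := fun _ : ℕ => fairCoin)
      (f := fun q : ℕ × (List Bool × ℕ) => Encodable.encode q) Encodable.encode_injective
  have h2 : (Measure.infinitePi (fun _ : ℕ × (List Bool × ℕ) => fairCoin)).map
      (MeasurableEquiv.curry ℕ (List Bool × ℕ) Bool) =
      Measure.infinitePi (fun _ : ℕ => Measure.infinitePi (fun _ : List Bool × ℕ => fairCoin)) :=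
    Measure.infinitePi_map_curry (fun (_ : ℕ) (_ : List Bool × ℕ) => fairCoin)
  have h3 : (Measure.infinitePi (fun _ : List Bool × ℕ => fairCoin)).map
      (MeasurableEquiv.curry (List Bool) ℕ Bool) = hashMeasure :=
    Measure.infinitePi_map_curry (fun (_ : List Bool) (_ : ℕ) => fairCoin)
  have h4 : (Measure.infinitePi
      (fun _ : ℕ => Measure.infinitePi (fun _ : List Bool × ℕ => fairCoin))).map
      (fun (x : ℕ → (List Bool × ℕ → Bool)) (i : ℕ) =>
        MeasurableEquiv.curry (List Bool) ℕ Bool (x i)) =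
      seqHashMeasure := by
    rw [Measure.infinitePi_map_pi (fun _ : ℕ => Measure.infinitePi
      (fun _ : List Bool × ℕ => fairCoin)) (f := fun _ => MeasurableEquiv.curry (List Bool) ℕ Bool)
      (fun _ => (MeasurableEquiv.curry (List Bool) ℕ Bool).measurable), seqHashMeasure]
    simp only [h3]
  rw [← h4, ← h2, ← h1, Measure.map_map, Measure.map_map]
  · rfl
  · fun_prop
  · fun_prop
  · fun_prop
  · fun_prop

end Run7.h748
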