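import Pool.Agent.Run7.h748.Psi

/-!
Finite slaloms and the counting of branches: if all functions from `J` to the Cantor set
are covered by continuum many finite slaloms then `J` has at most continuum many subsets.
-/

namespace Run7.h748

open Cardinal

/-- `Slal J Z`: all functions `J → Z` are covered by continuum many finite slaloms. -/
def Slal (J Z : Type) : Prop :=
  ∃ S : (ℕ → ℕ) → J → Set Z, (∀ y j, (S y j).Finite) ∧ ∀ h : J → Z, ∃ y, ∀ j, h j ∈ S y j

/-- `Sep K Z V`: there are `K` many functions `Z → V` such that every infinite subset of `Z`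
is mapped onto an infinite set by one of them. -/
def Sep (K Z V : Type) : Prop :=
  ∃ η : K → Z → V, ∀ S : Set Z, S.Infinite → ∃ k, (η k '' S).Infinite

theorem Dom.slal {J : Type} (h : Dom J) : Slal J ℕ := by
  obtain ⟨Φ, hΦ⟩ := h
  exact ⟨fun y j => {n | n ≤ Φ y j}, fun y j => Set.finite_le_nat _, hΦ⟩

theorem Slal.comp {J K Z V : Type} (h : Slal (J × K) V) (hs : Sep K Z V) : Slal J Z := by
  obtain ⟨S, hS, hc⟩ := h
  obtain ⟨η, hη⟩ := hs
  refine ⟨fun y j => {z | ∀ k, η k z ∈ S y (j, k)}, fun y j => ?_, fun f => ?_⟩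
  · by_contra hinf
    obtain ⟨k, hk⟩ := hη _ hinf
    refine hk ((hS y (j, k)).subset ?_)
    rintro _ ⟨z, hz, rfl⟩
    exact hz k
  · obtain ⟨y, hy⟩ := hc (fun p => η p.2 (f p.1))
    exact ⟨y, fun j k => hy (j, k)⟩

theorem Slal.of_embedding {J J' Z : Type} (h : Slal J' Z) (e : J → J')
    (he : Function.Injective e) : Slal J Z := by
  classical
  obtain ⟨S, hS, hc⟩ := h
  refine ⟨fun y j => S y (e j), fun y j => hS y _, fun f => ?_⟩
  by_cases hJ : Nonempty J
  · obtain ⟨j0⟩ := hJ
    obtain ⟨y, hy⟩ := hc (fun j' => if hj : ∃ i, e i = j' then f hj.choose else f j0)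
    refine ⟨y, fun i => ?_⟩
    have h1 := hy (e i)
    have h2 : ∃ i', e i' = e i := ⟨i, rfl⟩
    rw [dif_pos h2] at h1
    have h3 : h2.choose = i := he h2.choose_spec
    rw [h3] at h1
    exact h1
  · exact ⟨fun _ => 0, fun j => absurd ⟨j⟩ hJ⟩

theorem Slal.of_values {J Z Z' : Type} (h : Slal J Z') (e : Z → Z')
    (he : Function.Injective e) : Slal J Z := by
  obtain ⟨S, hS, hc⟩ := h
  refine ⟨fun y j => e ⁻¹' S y j, fun y j => (hS y j).preimage he.injOn, fun f => ?_⟩
  obtain ⟨y, hy⟩ := hc (fun j => e (f j))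
  exact ⟨y, hy⟩

/-- A set all of whose elements are mapped to `ℕ → ℕ` with finite fibres has size at most
continuum. -/
theorem exists_code {α : Type} (E : Set α) (y : α → (ℕ → ℕ))
    (hfin : ∀ w, {B ∈ E | y B = w}.Finite) :
    ∃ c : α → (ℕ → Bool), ∀ B ∈ E, ∀ B' ∈ E, c B = c B' → B = B' := by
  classical
  have hcount : ∀ w, ∃ g : α → ℕ, Set.InjOn g {B ∈ E | y B = w} := fun w =>
    Set.countable_iff_exists_injOn.1 (hfin w).countable
  choose g hg using hcount
  have hle : #((ℕ → ℕ) × ℕ) ≤ #(ℕ → Bool) := by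
    simp
  obtain ⟨e⟩ := hle
  refine ⟨fun B => e (y B, g (y B) B), ?_⟩
  intro B hB B' hB' h
  have h1 := e.injective h
  have h2 : y B = y B' := congrArg Prod.fst h1
  have h3 : g (y B) B = g (y B') B' := congrArg Prod.snd h1
  rw [← h2] at h3
  exact hg (y B) ⟨hB, rfl⟩ ⟨hB', h2.symm⟩ h3

/-- The step of the induction: if all subsets of the initial segments `Iic d`, `d ∈ D`, are
coded by reals, then so are the subsets of `D`. -/
theorem step {J : Type} [LinearOrder J] (hW : Slal J (ℕ → Bool)) (D : Set J)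
    (hD : ∀ d ∈ D, ∃ c : Set J → (ℕ → Bool), ∀ B B', c B = c B' → ∀ j ≤ d, (j ∈ B ↔ j ∈ B')) :
    ∃ c : Set J → (ℕ → Bool), ∀ B B', c B = c B' → ∀ j ∈ D, (j ∈ B ↔ j ∈ B') := by
  classical
  by_cases hne : D.Nonempty
  swap
  · refine ⟨fun _ _ => true, fun B B' _ j hj => absurd ⟨j, hj⟩ hne⟩
  obtain ⟨d0, hd0⟩ := hne
  have hD' : ∀ d : J, ∃ c : Set J → (ℕ → Bool), d ∈ D →
      ∀ B B', c B = c B' → ∀ j ≤ d, (j ∈ B ↔ j ∈ B') := by
    intro d
    by_cases hd : d ∈ D
    · obtain ⟨c, hc⟩ := hD d hd
      exact ⟨c, fun _ => hc⟩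
    · exact ⟨fun _ _ => true, fun h => absurd h hd⟩
  choose cc hcc using hD'
  by_cases hcof : ∃ u : ℕ → J, (∀ n, u n ∈ D) ∧ ∀ d ∈ D, ∃ n, d ≤ u n
  · obtain ⟨u, hu, hcof⟩ := hcof
    refine ⟨fun B n => cc (u (Nat.unpair n).1) B (Nat.unpair n).2, ?_⟩
    intro B B' h j hj
    obtain ⟨n, hn⟩ := hcof j hj
    refine hcc (u n) (hu n) B B' ?_ j hn
    funext k
    have := congrFun h (Nat.pair n k)
    simpa using this
  · push Not at hcof
    obtain ⟨S, hS, hc⟩ := hW
    choose y hy using fun B : Set J => hc (fun j => cc j B)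
    obtain ⟨c, hcE⟩ := exists_code {B : Set J | B ⊆ D} y (by
      intro w
      by_contra hinf
      have hinf' : {B ∈ {B : Set J | B ⊆ D} | y B = w}.Infinite := hinf
      let e := hinf'.natEmbedding
      have hdiff : ∀ p : ℕ, ∃ d ∈ D, (e p.unpair.1 : Set J) ≠ (e p.unpair.2 : Set J) →
          ¬ (d ∈ (e p.unpair.1 : Set J) ↔ d ∈ (e p.unpair.2 : Set J)) := by
        intro p
        by_cases heq : (e p.unpair.1 : Set J) = (e p.unpair.2 : Set J)
        · exact ⟨d0, hd0, fun h => absurd heq h⟩
        · have : ∃ d, ¬ (d ∈ (e p.unpair.1 : Set J) ↔ d ∈ (e p.unpair.2 : Set J)) := by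
            by_contra hall
            push Not at hall
            exact heq (Set.ext hall)
          obtain ⟨d, hd⟩ := this
          refine ⟨d, ?_, fun _ => hd⟩
          by_contra hdD
          apply hd
          constructor
          · intro h1
            exact absurd ((e p.unpair.1).2.1 h1) hdD
          · intro h1
            exact absurd ((e p.unpair.2).2.1 h1) hdD
      choose u huD hu using hdiff
      obtain ⟨d, hdD, hd⟩ := hcof u huD
      have hinj : Function.Injective (fun n => cc d (e n : Set J)) := by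
        intro n m hnm
        by_contra hne
        have h1 : (e n : Set J) ≠ (e m : Set J) := by
          intro h2
          exact hne (e.injective (Subtype.ext h2))
        have h2 := hu (Nat.pair n m)
        simp only [Nat.unpair_pair] at h2
        exact h2 h1 (hcc d hdD _ _ hnm _ (hd _).le)
      refine Set.infinite_range_of_injective hinj ((hS w d).subset ?_)
      rintro _ ⟨n, rfl⟩
      have h3 := hy (e n : Set J) d
      rw [(e n).2.2] at h3
      exact h3)
    refine ⟨fun B => c (B ∩ D), ?_⟩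
    intro B B' h j hj
    have h1 := hcE (B ∩ D) Set.inter_subset_right (B' ∩ D) Set.inter_subset_right h
    constructor
    · intro hB
      have : j ∈ B' ∩ D := h1 ▸ ⟨hB, hj⟩
      exact this.1
    · intro hB
      have : j ∈ B ∩ D := h1 ▸ ⟨hB, hj⟩
      exact this.1

/-- If all functions from `J` to the Cantor set are covered by continuum many finite slaloms
then `J` has at most continuum many subsets. -/
theorem two_power_le_of_slal {J : Type} (hW : Slal J (ℕ → Bool)) :
    (2 : Cardinal.{0}) ^ #J ≤ 2 ^ ℵ₀ := by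
  classical
  let _ : LinearOrder J := linearOrderOfSTO (WellOrderingRel (α := J))
  have wf : WellFounded (fun a b : J => a < b) := (inferInstance : IsWellFounded J WellOrderingRel).wf
  have hall : ∀ a : J, ∃ c : Set J → (ℕ → Bool),
      ∀ B B', c B = c B' → ∀ j ≤ a, (j ∈ B ↔ j ∈ B') := by
    intro a
    induction a using wf.induction with
    | _ a ih =>
      obtain ⟨c, hc⟩ := step hW (Set.Iio a) (fun d hd => ih d hd)
      refine ⟨fun B n => Nat.casesOn n (decide (a ∈ B)) (fun k => c B k), ?_⟩
      intro B B' h j hj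
      have h0 : decide (a ∈ B) = decide (a ∈ B') := congrFun h 0
      have h1 : c B = c B' := by
        funext k
        exact congrFun h (k + 1)
      rcases lt_or_eq_of_le hj with hlt | rfl
      · exact hc B B' h1 j hlt
      · simpa using h0
  obtain ⟨c, hc⟩ := step hW Set.univ (fun d _ => hall d)
  have hinj : Function.Injective c := by
    intro B B' h
    ext j
    exact hc B B' h j trivial
  have := mk_le_of_injective hinj
  simpa using this

end Run7.h748
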