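import Pool.Agent.Run7.h748.Core
import Pool.Agent.Run7.h748.Coin

/-!
Cardinal characteristics and the hashing argument: from an unbounded family `B`, a set `P`
that is not covered by countably many closed null sets, and a set `X` that is not strong
measure zero, one obtains `B × P` many functions from the Cantor set to `X` such that every
infinite set of reals has infinite image under one of them.
-/

namespace Run7.h748

open MeasureTheory Filter

/-- `X` belongs to the sigma-ideal generated by the closed null sets. -/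
def InE (X : Set (ℕ → Bool)) : Prop :=
  ∃ K : ℕ → Set (ℕ → Bool), (∀ n, IsClosed (K n) ∧ cantorMeasure (K n) = 0) ∧ X ⊆ ⋃ n, K n

/-- Strong measure zero subsets of the Cantor space: for every `f` there are points `y n`
such that each element of `X` agrees with some `y n` on the first `f n` bits. -/
def StrongMeasureZero (X : Set (ℕ → Bool)) : Prop :=
  ∀ f : ℕ → ℕ, ∃ y : ℕ → (ℕ → Bool), ∀ x ∈ X, ∃ n, ∀ i < f n, x i = y n i

/-- `B` is unbounded with respect to eventual domination. -/
def Unbounded (B : Set (ℕ → ℕ)) : Prop :=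
  ¬ ∃ g : ℕ → ℕ, ∀ b ∈ B, ∀ᶠ n in atTop, b n ≤ g n

open Cardinal in
/-- The bounding number. -/
noncomputable def bNum : Cardinal.{0} := sInf {κ | ∃ B : Set (ℕ → ℕ), #B = κ ∧ Unbounded B}

open Cardinal in
/-- The least size of a set not covered by countably many closed null sets. -/
noncomputable def nonE : Cardinal.{0} := sInf {κ | ∃ X : Set (ℕ → Bool), #X = κ ∧ ¬ InE X}

open Cardinal in
/-- The least size of a set that is not strong measure zero. -/
noncomputable def nonSN : Cardinal.{0} :=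
  sInf {κ | ∃ X : Set (ℕ → Bool), #X = κ ∧ ¬ StrongMeasureZero X}

/-- The string of the first `n` bits. -/
def res (n : ℕ) (z : ℕ → Bool) : List Bool := List.ofFn (fun i : Fin n => z i)

theorem res_eq {n : ℕ} {z z' : ℕ → Bool} (h : res n z = res n z') {k : ℕ} (hk : k < n) :
    z k = z' k := by
  have := List.ofFn_injective h
  exact congrFun this ⟨k, hk⟩

theorem exists_many_strings {S : Set (ℕ → Bool)} (hS : S.Infinite) (g : ℕ) :
    ∃ h : ℕ, ∀ n ≥ h, ∃ T : Finset (List Bool), g ≤ T.card ∧ ∀ t ∈ T, ∃ z ∈ S, res n z = t := by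
  classical
  obtain ⟨S0, hS0, hcard⟩ := hS.exists_subset_card_eq g
  have hk : ∀ q : (ℕ → Bool) × (ℕ → Bool), ∃ k, q.1 ≠ q.2 → q.1 k ≠ q.2 k := by
    intro q
    by_cases h : q.1 = q.2
    · exact ⟨0, fun h' => absurd h h'⟩
    · obtain ⟨k, hk⟩ := Function.ne_iff.1 h
      exact ⟨k, fun _ => hk⟩
  choose k hk using hk
  refine ⟨(S0 ×ˢ S0).sup (fun q => k q + 1), fun n hn => ⟨S0.image (res n), ?_, ?_⟩⟩
  · rw [Finset.card_image_of_injOn, hcard]
    intro z hz z' hz' h
    by_contra hne
    have h1 : k (z, z') + 1 ≤ n := by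
      refine le_trans ?_ hn
      exact Finset.le_sup (f := fun q => k q + 1) (Finset.mk_mem_product hz hz')
    exact hk (z, z') hne (res_eq h h1)
  · intro t ht
    obtain ⟨z, hz, rfl⟩ := Finset.mem_image.1 ht
    exact ⟨z, hS0 hz, rfl⟩

theorem isOpen_cylinder (N : ℕ) (τ : ℕ → Bool) :
    IsOpen {u : ℕ → Bool | ∀ r < N, u r = τ r} := by
  have h : {u : ℕ → Bool | ∀ r < N, u r = τ r} =
      Set.pi (Finset.range N : Set ℕ) (fun r => {τ r}) := by
    ext u
    simp [Set.mem_pi]
  rw [h]
  exact isOpen_set_pi (Finset.finite_toSet _) fun i _ => isOpen_discrete _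

theorem isClosed_missSet (N : ℕ) (T : Finset (List Bool)) : IsClosed (missSet N T) := by
  rw [missSet_eq]
  refine isClosed_iUnion_of_finite fun τ => ?_
  exact isClosed_set_pi fun i _ => (isOpen_cylinder N _).isClosed_compl

theorem continuous_readMap : Continuous readMap := by
  unfold readMap
  fun_prop

theorem measurable_readMap : Measurable readMap := by
  unfold readMap
  fun_prop

theorem badSet_spec (N : ℕ → ℕ) (T : ℕ → Finset (List Bool)) (M : Set ℕ) (hM : M.Infinite)
    (hT : ∀ m ∈ M, 2 ^ N m * (N m + 1) ≤ (T m).card) :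
    IsClosed {p | ∀ m ∈ M, readMap p m ∈ missSet (N m) (T m)} ∧
      cantorMeasure {p | ∀ m ∈ M, readMap p m ∈ missSet (N m) (T m)} = 0 := by
  constructor
  · have : {p | ∀ m ∈ M, readMap p m ∈ missSet (N m) (T m)} =
        ⋂ m ∈ M, (fun p => readMap p m) ⁻¹' missSet (N m) (T m) := by
      ext p; simp
    rw [this]
    refine isClosed_biInter fun m _ => ?_
    exact (isClosed_missSet _ _).preimage ((continuous_apply m).comp continuous_readMap)
  · have h1 : MeasurableSet {ω : ℕ → (List Bool → (ℕ → Bool)) |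
        ∀ m ∈ M, ω m ∈ missSet (N m) (T m)} := by
      have : {ω : ℕ → (List Bool → (ℕ → Bool)) | ∀ m ∈ M, ω m ∈ missSet (N m) (T m)} =
          ⋂ m ∈ M, (fun ω => ω m) ⁻¹' missSet (N m) (T m) := by
        ext p; simp
      rw [this]
      refine MeasurableSet.biInter M.to_countable fun m _ => ?_
      exact measurable_pi_apply m (measurableSet_missSet _ _)
    have h2 := seqHash_null N T M hM hT
    rw [← map_readMap, Measure.map_apply measurable_readMap h1] at h2
    exact h2

/-- The hashing argument. -/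
theorem sep_hash {B : Set (ℕ → ℕ)} (hB : Unbounded B) {P : Set (ℕ → Bool)} (hP : ¬ InE P)
    {X : Set (ℕ → Bool)} (hX : ¬ StrongMeasureZero X) : Sep (B × P) (ℕ → Bool) X := by
  classical
  unfold StrongMeasureZero at hX
  push Not at hX
  obtain ⟨f, hf⟩ := hX
  let F : ℕ → ℕ := fun m => (Finset.range (m + 1)).sup (fun j => f (Nat.pair m j))
  let N : ℕ → ℕ := fun m => (m + 1) * F m
  -- the choice of the avoiding element of `X`
  have hη : ∀ (k : B × P) (z : ℕ → Bool), ∃ x : X, ∀ m, ∀ j ≤ m, ∃ l < F m,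
      (x : ℕ → Bool) l ≠ readMap k.2 m (res (k.1.1 m) z) (j * F m + l) := by
    intro k z
    obtain ⟨x, hxX, hx⟩ := hf (fun n l => readMap k.2 n.unpair.1 (res (k.1.1 n.unpair.1) z)
      (n.unpair.2 * F n.unpair.1 + l))
    refine ⟨⟨x, hxX⟩, fun m j hj => ?_⟩
    obtain ⟨l, hl, hne⟩ := hx (Nat.pair m j)
    simp only [Nat.unpair_pair] at hne
    refine ⟨l, lt_of_lt_of_le hl ?_, hne⟩
    exact Finset.le_sup (f := fun j => f (Nat.pair m j)) (Finset.mem_range.2 (Nat.lt_succ_of_le hj))
  choose η hη using hη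
  refine ⟨η, fun S hS => ?_⟩
  -- many strings
  choose h hh using fun m => exists_many_strings hS (2 ^ N m * (N m + 1))
  have hB' : ∃ b ∈ B, ∃ᶠ n in atTop, h n < b n := by
    by_contra hcon
    push Not at hcon
    exact hB ⟨h, fun b hb => by simpa using hcon b hb⟩
  obtain ⟨b, hbB, hb⟩ := hB'
  let M : Set ℕ := {m | h m < b m}
  have hM : M.Infinite := Nat.frequently_atTop_iff_infinite.1 hb
  have hT : ∀ m, ∃ T : Finset (List Bool), m ∈ M →
      (2 ^ N m * (N m + 1) ≤ T.card ∧ ∀ t ∈ T, ∃ z ∈ S, res (b m) z = t) := by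
    intro m
    by_cases hm : m ∈ M
    · obtain ⟨T, hT⟩ := hh m (b m) (le_of_lt hm)
      exact ⟨T, fun _ => hT⟩
    · exact ⟨∅, fun h => absurd h hm⟩
  choose T hT using hT
  -- a hash function that is good infinitely often
  have hp : ∃ p ∈ P, ∀ m0, ∃ m ∈ M, m0 ≤ m ∧ readMap p m ∉ missSet (N m) (T m) := by
    by_contra hcon
    push Not at hcon
    apply hP
    refine ⟨fun m0 => {p | ∀ m ∈ M ∩ Set.Ici m0, readMap p m ∈ missSet (N m) (T m)},
      fun m0 => ?_, ?_⟩
    · refine badSet_spec N T (M ∩ Set.Ici m0) ?_ fun m hm => (hT m hm.1).1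
      have : M ∩ Set.Ici m0 = M \ Set.Iio m0 := by
        ext x; simp
      rw [this]
      exact hM.sdiff (Set.finite_Iio m0)
    · intro p hp
      obtain ⟨m0, hm0⟩ := hcon p hp
      rw [Set.mem_iUnion]
      exact ⟨m0, fun m hm => hm0 m hm.1 hm.2⟩
  obtain ⟨p, hpP, hp⟩ := hp
  let k : B × P := (⟨b, hbB⟩, ⟨p, hpP⟩)
  refine ⟨k, fun hfin => ?_⟩
  obtain ⟨z0, hz0⟩ := hS.nonempty
  let L : List X := hfin.toFinset.toList
  have hL : ∀ z ∈ S, η k z ∈ L := by
    intro z hz
    simp only [L, Finset.mem_toList, Set.Finite.mem_toFinset]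
    exact ⟨z, hz, rfl⟩
  obtain ⟨m, hmM, hmL, hmiss⟩ := hp L.length
  have hall : ∀ τ : ℕ → Bool, ∃ t ∈ T m, ∀ r < N m, readMap p m t r = τ r := by
    intro τ
    by_contra hcon
    push Not at hcon
    exact hmiss ⟨τ, fun t ht hcon' => by
      obtain ⟨r, hr, hne⟩ := hcon t ht
      exact hne (hcon' r hr)⟩
  obtain ⟨t, htT, ht⟩ := hall (fun r => (L.getD (r / F m) (η k z0) : X).1 (r % F m))
  obtain ⟨z, hzS, hzt⟩ := (hT m hmM).2 t htT
  obtain ⟨j, hj, hjx⟩ := List.getElem_of_mem (hL z hzS)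
  have hjm : j ≤ m := (Nat.le_of_lt hj).trans hmL
  obtain ⟨l, hl, hne⟩ := hη k z m j hjm
  apply hne
  have hFpos : 0 < F m := lt_of_le_of_lt (Nat.zero_le l) hl
  have hr : j * F m + l < N m := by
    calc j * F m + l < j * F m + F m := by omega
      _ = (j + 1) * F m := by ring
      _ ≤ (m + 1) * F m := Nat.mul_le_mul_right _ (by omega)
  have h1 := ht (j * F m + l) hr
  have h2 : (j * F m + l) / F m = j := by
    rw [Nat.add_comm, Nat.add_mul_div_right _ _ hFpos, Nat.div_eq_of_lt hl]
    simp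
  have h3 : (j * F m + l) % F m = l := by
    rw [Nat.add_comm, Nat.add_mul_mod_self_right, Nat.mod_eq_of_lt hl]
  simp only [h2, h3] at h1
  have h4 : L.getD j (η k z0) = η k z := by
    rw [List.getD_eq_getElem _ _ hj, hjx]
  rw [h4] at h1
  change (η k z : ℕ → Bool) l = readMap p m (res (b m) z) (j * F m + l)
  rw [hzt, h1]

end Run7.h748
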