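import Pool.Agent.Run7.h748.Hash

/-!
Localization: from an unbounded family and a localizing family of slaloms one obtains a
separating family of functions on the Cantor set.
-/

namespace Run7.h748

open Filter

/-- A family of slaloms of width `n + 1` that localizes all functions `ℕ → ℕ`. -/
def Localizing (L : Set (ℕ → Finset ℕ)) : Prop :=
  (∀ S ∈ L, ∀ n, (S n).card ≤ n + 1) ∧ ∀ f : ℕ → ℕ, ∃ S ∈ L, ∀ᶠ n in atTop, f n ∈ S n

open Cardinal in
/-- The localization number: the least size of a localizing family of slaloms. -/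
noncomputable def locNum : Cardinal.{0} :=
  sInf {κ | ∃ L : Set (ℕ → Finset ℕ), #L = κ ∧ Localizing L}

theorem sep_thin {B : Set (ℕ → ℕ)} (hB : Unbounded B) {L : Set (ℕ → Finset ℕ)}
    (hL : Localizing L) : Sep B (ℕ → Bool) (L × ℕ) := by
  classical
  obtain ⟨hL1, hL2⟩ := hL
  have hη : ∀ (b : B) (z : ℕ → Bool), ∃ v : L × ℕ, ∀ n ≥ v.2,
      Encodable.encode (res (b.1 n) z) ∈ v.1.1 n := by
    intro b z
    obtain ⟨S, hS, hz⟩ := hL2 (fun n => Encodable.encode (res (b.1 n) z))
    obtain ⟨n0, hn0⟩ := eventually_atTop.1 hz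
    exact ⟨(⟨S, hS⟩, n0), hn0⟩
  choose η hη using hη
  refine ⟨η, fun S hS => ?_⟩
  choose h hh using fun m => exists_many_strings hS ((m + 1) * (m + 1) + 1)
  have hB' : ∃ b ∈ B, ∃ᶠ n in atTop, h n < b n := by
    by_contra hcon
    push Not at hcon
    exact hB ⟨h, fun b hb => by simpa using hcon b hb⟩
  obtain ⟨b, hbB, hb⟩ := hB'
  refine ⟨⟨b, hbB⟩, fun hfin => ?_⟩
  let E : Finset (L × ℕ) := hfin.toFinset
  have hE : ∀ z ∈ S, η ⟨b, hbB⟩ z ∈ E := by
    intro z hz
    simp only [E, Set.Finite.mem_toFinset]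
    exact ⟨z, hz, rfl⟩
  obtain ⟨m, hm, hbm⟩ := (frequently_atTop.1 hb) (max E.card (E.sup fun v => v.2))
  obtain ⟨T, hTcard, hT⟩ := hh m (b m) hbm.le
  have hsub : T.image Encodable.encode ⊆ E.biUnion (fun v => v.1.1 m) := by
    intro c hc
    obtain ⟨t, ht, rfl⟩ := Finset.mem_image.1 hc
    obtain ⟨z, hz, rfl⟩ := hT t ht
    rw [Finset.mem_biUnion]
    refine ⟨η ⟨b, hbB⟩ z, hE z hz, hη ⟨b, hbB⟩ z m ?_⟩
    refine le_trans ?_ ((le_max_right _ _).trans hm)
    exact Finset.le_sup (f := fun v : L × ℕ => v.2) (hE z hz)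
  have h1 : T.card ≤ (m + 1) * (m + 1) := by
    rw [← Finset.card_image_of_injective T Encodable.encode_injective]
    refine (Finset.card_le_card hsub).trans ?_
    refine (Finset.card_biUnion_le_card_mul _ _ (m + 1) fun v _ => hL1 _ v.1.2 m).trans ?_
    gcongr
    have := (le_max_left _ _).trans hm
    omega
  omega

end Run7.h748
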