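import Pool.Agent.Run7.h748.Up
import Pool.Agent.Run7.h748.Hash
import Pool.Agent.Run7.h748.Thin

/-!
The two main theorems on families with dominated function spaces.
-/

namespace Run7.h748

open Cardinal

theorem mk_le_continuum_of_subset (X : Set (ℕ → Bool)) : #X ≤ 2 ^ ℵ₀ := by
  refine (mk_set_le X).trans ?_
  simp

theorem mk_prod_self_eq {J : Type} (hJ : ℵ₀ ≤ #J) : #(J × J) = #J := by
  rw [mk_prod, lift_id, mul_eq_self hJ]

theorem Dom.prod_self {J : Type} (hJ : ℵ₀ ≤ #J) (h : Dom J) : Dom (J × J) := by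
  obtain ⟨e⟩ := (mk_prod_self_eq hJ).le
  exact h.of_embedding e e.injective

/-- The base case: functions to small sets. -/
theorem Dom.slal_small {J : Type} (hJ : ℵ₀ ≤ #J) (h : Dom J) :
    ∀ Z : Type, #Z ≤ #J → Slal J Z := by
  intro Z hZ
  have hinf : Infinite J := infinite_iff.2 hJ
  have h1 : Slal (J × J) ℕ := (h.prod_self hJ).slal
  exact h1.comp (sep_of_mk_le hZ)

/-- Transport of a separating family to a larger index type. -/
theorem Sep.of_mk_le {K J Z V : Type} (hK : Nonempty K) (h : Sep K Z V) (hle : #K ≤ #J) :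
    Sep J Z V := by
  obtain ⟨e⟩ := hle
  exact h.of_index e e.injective

/-- The general form of the argument: a dominated function space, a separating family with
values in `V` and no cardinal of intermediate cofinality up to `#V`. -/
theorem two_power_le_of_sep {J K V : Type} (hJ : ℵ₀ ≤ #J) (h : Dom J) (hK : Nonempty K)
    (hKJ : #K ≤ #J) (hs : Sep K (ℕ → Bool) V) (hV : #V ≤ 2 ^ ℵ₀)
    (hno : ¬ ∃ l : Cardinal.{0}, #J < l ∧ l ≤ #V ∧ ℵ₁ ≤ l.ord.cof ∧ l.ord.cof ≤ #J) :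
    (2 : Cardinal.{0}) ^ #J ≤ 2 ^ ℵ₀ := by
  have h1 : Slal J V := slal_up h.slal #J hJ (h.slal_small hJ) #V hV hno V le_rfl
  have h2 : Slal (J × J) V := by
    obtain ⟨e⟩ := (mk_prod_self_eq hJ).le
    exact h1.of_embedding e e.injective
  exact two_power_le_of_slal (h2.comp (hs.of_mk_le hK hKJ))

theorem exists_bNum : ∃ B : Set (ℕ → ℕ), #B = bNum ∧ Unbounded B := by
  have hne : {κ : Cardinal.{0} | ∃ B : Set (ℕ → ℕ), #B = κ ∧ Unbounded B}.Nonempty := by
    refine ⟨_, Set.univ, rfl, ?_⟩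
    rintro ⟨g, hg⟩
    have := hg (fun n => g n + 1) trivial
    obtain ⟨n, hn⟩ := this.exists
    omega
  exact csInf_mem hne

theorem exists_nonE : ∃ X : Set (ℕ → Bool), #X = nonE ∧ ¬ InE X := by
  have hne : {κ : Cardinal.{0} | ∃ X : Set (ℕ → Bool), #X = κ ∧ ¬ InE X}.Nonempty := by
    refine ⟨_, Set.univ, rfl, ?_⟩
    rintro ⟨K, hK, hcov⟩
    have h1 : cantorMeasure (⋃ n, K n) = 0 := MeasureTheory.measure_iUnion_null fun n => (hK n).2
    have h2 : cantorMeasure (Set.univ : Set (ℕ → Bool)) = 0 :=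
      MeasureTheory.measure_mono_null hcov h1
    simp at h2
  exact csInf_mem hne

theorem exists_nonSN : ∃ X : Set (ℕ → Bool), #X = nonSN ∧ ¬ StrongMeasureZero X := by
  have hne : {κ : Cardinal.{0} | ∃ X : Set (ℕ → Bool), #X = κ ∧ ¬ StrongMeasureZero X}.Nonempty := by
    refine ⟨_, Set.univ, rfl, ?_⟩
    intro h
    obtain ⟨y, hy⟩ := h (fun n => n + 1)
    obtain ⟨n, hn⟩ := hy (fun n => !(y n n)) trivial
    have := hn n (Nat.lt_succ_self n)
    simp at this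
  exact csInf_mem hne

theorem exists_locNum : ∃ L : Set (ℕ → Finset ℕ), #L = locNum ∧ Localizing L := by
  have hne : {κ : Cardinal.{0} | ∃ L : Set (ℕ → Finset ℕ), #L = κ ∧ Localizing L}.Nonempty := by
    refine ⟨_, Set.range (fun (f : ℕ → ℕ) n => {f n}), rfl, ?_, ?_⟩
    · rintro _ ⟨f, rfl⟩ n
      simp
    · intro f
      exact ⟨_, ⟨f, rfl⟩, by simp⟩
  exact csInf_mem hne

theorem locNum_le : locNum ≤ 2 ^ ℵ₀ := by
  obtain ⟨L, hL, -⟩ := exists_locNum
  rw [← hL]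
  refine (mk_set_le L).trans ?_
  have h1 : #(Finset ℕ) = ℵ₀ := by simp
  have h2 : #(ℕ → Finset ℕ) = #(Finset ℕ) ^ ℵ₀ := by simp
  rw [h2, h1, aleph0_power_aleph0, two_power_aleph0]

theorem aleph1_le_nonSN : ℵ₁ ≤ nonSN := by
  obtain ⟨X, hX, hsn⟩ := exists_nonSN
  rw [← hX]
  by_contra hcon
  push Not at hcon
  have hc : X.Countable := by
    rw [← le_aleph0_iff_set_countable]
    have : ℵ₁ = Order.succ ℵ₀ := succ_aleph0.symm
    rw [this] at hcon
    exact Order.lt_succ_iff.1 hcon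
  apply hsn
  intro f
  by_cases hne : X.Nonempty
  · obtain ⟨u, hu⟩ := hc.exists_eq_range hne
    refine ⟨u, fun x hx => ?_⟩
    rw [hu] at hx
    obtain ⟨n, rfl⟩ := hx
    exact ⟨n, fun i _ => rfl⟩
  · exact ⟨fun _ _ => true, fun x hx => absurd ⟨x, hx⟩ hne⟩

/-- If the function space of `J` is dominated, `#J` is at least the bounding number and
`non(E)`, and there is no cardinal `l` with `#J < l ≤ non(SN)` and `ℵ₁ ≤ cf l ≤ #J`, then
`J` has at most continuum many subsets. -/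
theorem main_hash {J : Type} (hJ : ℵ₀ ≤ #J) (h : Dom J) (hb : bNum ≤ #J) (hE : nonE ≤ #J)
    (hno : ¬ ∃ l : Cardinal.{0}, #J < l ∧ l ≤ nonSN ∧ ℵ₁ ≤ l.ord.cof ∧ l.ord.cof ≤ #J) :
    (2 : Cardinal.{0}) ^ #J ≤ 2 ^ ℵ₀ := by
  obtain ⟨B, hBc, hB⟩ := exists_bNum
  obtain ⟨P, hPc, hP⟩ := exists_nonE
  obtain ⟨X, hXc, hX⟩ := exists_nonSN
  have hs := sep_hash hB hP hX
  have hBne : B.Nonempty := by
    by_contra hcon
    rw [Set.not_nonempty_iff_eq_empty] at hcon
    subst hcon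
    exact hB ⟨fun _ => 0, fun b hb => absurd hb (Set.notMem_empty b)⟩
  have hPne : P.Nonempty := by
    by_contra hcon
    rw [Set.not_nonempty_iff_eq_empty] at hcon
    subst hcon
    exact hP ⟨fun _ => ∅, fun n => ⟨isClosed_empty, by simp⟩, by simp⟩
  have hK : Nonempty (B × P) := ⟨(⟨_, hBne.choose_spec⟩, ⟨_, hPne.choose_spec⟩)⟩
  refine two_power_le_of_sep hJ h hK ?_ hs (mk_le_continuum_of_subset X) ?_
  · rw [mk_prod, lift_id, lift_id, hBc, hPc]
    calc bNum * nonE ≤ #J * #J := by gcongr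
      _ = #J := mul_eq_self hJ
  · rw [hXc]
    exact hno

/-- If the function space of `J` is dominated, `#J` is at least the bounding number,
and there is no cardinal `l` with `#J < l ≤ locNum` and `ℵ₁ ≤ cf l ≤ #J`, then
`J` has at most continuum many subsets. -/
theorem main_thin {J : Type} (hJ : ℵ₀ ≤ #J) (h : Dom J) (hb : bNum ≤ #J)
    (hno : ¬ ∃ l : Cardinal.{0}, #J < l ∧ l ≤ locNum ∧ ℵ₁ ≤ l.ord.cof ∧ l.ord.cof ≤ #J) :
    (2 : Cardinal.{0}) ^ #J ≤ 2 ^ ℵ₀ := by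
  obtain ⟨B, hBc, hB⟩ := exists_bNum
  obtain ⟨L, hLc, hL⟩ := exists_locNum
  have hs := sep_thin hB hL
  have hBne : B.Nonempty := by
    by_contra hcon
    rw [Set.not_nonempty_iff_eq_empty] at hcon
    subst hcon
    exact hB ⟨fun _ => 0, fun b hb => absurd hb (Set.notMem_empty b)⟩
  have hK : Nonempty B := ⟨⟨_, hBne.choose_spec⟩⟩
  have hcard : #(L × ℕ) ≤ max locNum ℵ₀ := by
    rw [mk_prod, lift_id, lift_id, hLc, mk_nat]
    calc locNum * ℵ₀ ≤ max (max locNum ℵ₀) ℵ₀ := mul_le_max _ _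
      _ = max locNum ℵ₀ := by simp
  have hcard' : #(L × ℕ) ≤ 2 ^ ℵ₀ :=
    hcard.trans (max_le locNum_le (cantor ℵ₀).le)
  refine two_power_le_of_sep hJ h hK (by rw [hBc]; exact hb) hs hcard' ?_
  rintro ⟨l, h1, h2, h3, h4⟩
  refine hno ⟨l, h1, ?_, h3, h4⟩
  rcases le_max_iff.1 (h2.trans hcard) with h5 | h5
  · exact h5
  · exact absurd (hJ.trans_lt h1) (not_lt.2 h5)

end Run7.h748
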