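import Mathlib

/-!
Psi-spaces of almost disjoint families, property (a), countable paracompactness,
the two never cardinals, and the reduction of both properties to the domination
of all functions from the family to the natural numbers by continuum many functions.
-/

namespace Run7.h748

open Topology

/-- `A` is an almost disjoint family: a set of infinite subsets of `ℕ`, any two
distinct members of which have finite intersection. -/
def IsAD (A : Set (Set ℕ)) : Prop :=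
  (∀ a ∈ A, a.Infinite) ∧ ∀ a ∈ A, ∀ b ∈ A, a ≠ b → (a ∩ b).Finite

/-- The underlying set of the Psi-space of `A`: the disjoint union of `ℕ` and `A`. -/
inductive Psi (A : Set (Set ℕ)) : Type
  | nat (n : ℕ) : Psi A
  | pt (a : A) : Psi A

/-- The Psi-space topology: a set `U` is open iff for each point `a` of the family that
belongs to `U`, all but finitely many elements of `a` belong to `U`. -/
instance (A : Set (Set ℕ)) : TopologicalSpace (Psi A) where
  IsOpen U := ∀ a : A, Psi.pt a ∈ U → {n : ℕ | n ∈ (a : Set ℕ) ∧ Psi.nat n ∉ U}.Finite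
  isOpen_univ := by
    intro a _
    simp
  isOpen_inter := by
    intro s t hs ht a ha
    refine ((hs a ha.1).union (ht a ha.2)).subset ?_
    intro n hn
    obtain ⟨h1, h2⟩ := hn
    by_cases h : Psi.nat n ∈ s
    · right
      exact ⟨h1, fun h3 => h2 ⟨h, h3⟩⟩
    · left
      exact ⟨h1, h⟩
  isOpen_sUnion := by
    intro S hS a ha
    obtain ⟨t, htS, hat⟩ := ha
    refine (hS t htS a hat).subset ?_
    intro n hn
    exact ⟨hn.1, fun h => hn.2 ⟨t, htS, h⟩⟩

theorem isOpen_psi_iff (A : Set (Set ℕ)) (U : Set (Psi A)) :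
    IsOpen U ↔ ∀ a : A, Psi.pt a ∈ U →
      {n : ℕ | n ∈ (a : Set ℕ) ∧ Psi.nat n ∉ U}.Finite := Iff.rfl

/-- Property (a): for every open cover and every dense set `D` there is a closed discrete
`F ⊆ D` whose star with respect to the cover is the whole space. -/
def PropertyA (X : Type) [TopologicalSpace X] : Prop :=
  ∀ 𝒰 : Set (Set X), (∀ U ∈ 𝒰, IsOpen U) → ⋃₀ 𝒰 = Set.univ → ∀ D : Set X, Dense D →
    ∃ F : Set X, F ⊆ D ∧ IsClosed F ∧ DiscreteTopology F ∧
      ⋃₀ {U ∈ 𝒰 | (U ∩ F).Nonempty} = Set.univ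

/-- Countable paracompactness: every countable open cover has a locally finite open
refinement. -/
def CtblyParacompact (X : Type) [TopologicalSpace X] : Prop :=
  ∀ U : ℕ → Set X, (∀ n, IsOpen (U n)) → ⋃ n, U n = Set.univ →
    ∃ 𝒱 : Set (Set X), (∀ V ∈ 𝒱, IsOpen V) ∧ ⋃₀ 𝒱 = Set.univ ∧ (∀ V ∈ 𝒱, ∃ n, V ⊆ U n) ∧
      ∀ x : X, ∃ W : Set X, IsOpen W ∧ x ∈ W ∧ {V ∈ 𝒱 | (V ∩ W).Nonempty}.Finite

open Cardinal in
/-- The cardinal `v_a`: the least `κ` such that no almost disjoint family of size `κ`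
is (a). -/
noncomputable def va : Cardinal.{0} :=
  sInf {κ : Cardinal.{0} | ∀ A : Set (Set ℕ), IsAD A → #A = κ → ¬ PropertyA (Psi A)}

open Cardinal in
/-- The cardinal `v_cp`: the least `κ` such that no almost disjoint family of size `κ`
is countably paracompact. -/
noncomputable def vcp : Cardinal.{0} :=
  sInf {κ : Cardinal.{0} | ∀ A : Set (Set ℕ), IsAD A → #A = κ → ¬ CtblyParacompact (Psi A)}

/-- `Dom I`: the functions `I → ℕ` are dominated (everywhere) by a family of at most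
continuum many functions, indexed by `ℕ → ℕ`. -/
def Dom (I : Type) : Prop :=
  ∃ Φ : (ℕ → ℕ) → I → ℕ, ∀ f : I → ℕ, ∃ y, ∀ i, f i ≤ Φ y i

theorem Dom.of_embedding {I J : Type} (h : Dom J) (e : I → J) (he : Function.Injective e) :
    Dom I := by
  classical
  obtain ⟨Φ, hΦ⟩ := h
  refine ⟨fun y i => Φ y (e i), fun f => ?_⟩
  obtain ⟨y, hy⟩ := hΦ (fun j => if hj : ∃ i, e i = j then f hj.choose else 0)
  refine ⟨y, fun i => ?_⟩
  have h1 := hy (e i)
  have h2 : ∃ i', e i' = e i := ⟨i, rfl⟩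
  rw [dif_pos h2] at h1
  have h3 : h2.choose = i := he h2.choose_spec
  rw [h3] at h1
  exact h1

/-- Property (a) for the Psi-space gives domination. -/
theorem dom_of_propertyA {A : Set (Set ℕ)} (hA : IsAD A) (h : PropertyA (Psi A)) :
    Dom A := by
  classical
  -- responses: coded by characteristic functions
  refine ⟨fun y a => sSup {n : ℕ | n ∈ (a : Set ℕ) ∧ y n = 1}, fun f => ?_⟩
  let N : A → Set (Psi A) := fun a =>
    insert (Psi.pt a) {x | ∃ n : ℕ, x = Psi.nat n ∧ n ∈ (a : Set ℕ) ∧ f a ≤ n}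
  let S : ℕ → Set (Psi A) := fun n => {Psi.nat n}
  have hN : ∀ a, IsOpen (N a) := by
    intro a b hb
    have hab : b = a := by
      rcases hb with hb | ⟨n, hn, _⟩
      · exact Psi.pt.inj hb
      · cases hn
    subst hab
    refine (Set.finite_lt_nat (f b)).subset ?_
    intro n hn
    obtain ⟨h1, h2⟩ := hn
    by_contra h3
    have h3' : f b ≤ n := by simpa using h3
    exact h2 (Or.inr ⟨n, rfl, h1, h3'⟩)
  have hS : ∀ n, IsOpen (S n) := by
    intro n b hb
    have : (Psi.pt b : Psi A) = Psi.nat n := hb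
    cases this
  let 𝒰 : Set (Set (Psi A)) := Set.range N ∪ Set.range S
  have h𝒰 : ∀ U ∈ 𝒰, IsOpen U := by
    rintro U (⟨a, rfl⟩ | ⟨n, rfl⟩)
    · exact hN a
    · exact hS n
  have hcov : ⋃₀ 𝒰 = Set.univ := by
    refine Set.eq_univ_of_forall fun x => ?_
    rcases x with n | a
    · exact ⟨S n, Or.inr ⟨n, rfl⟩, rfl⟩
    · exact ⟨N a, Or.inl ⟨a, rfl⟩, Or.inl rfl⟩
  let D : Set (Psi A) := Set.range (fun n : ℕ => (Psi.nat n : Psi A))
  have hD : Dense D := by
    rw [dense_iff_inter_open]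
    intro U hU hne
    obtain ⟨x, hx⟩ := hne
    rcases x with n | a
    · exact ⟨_, hx, n, rfl⟩
    · have hfin := hU a hx
      have hinf := hA.1 a a.2
      have : ((a : Set ℕ) \ {n : ℕ | n ∈ (a : Set ℕ) ∧ (Psi.nat n : Psi A) ∉ U}).Nonempty :=
        (hinf.sdiff hfin).nonempty
      obtain ⟨n, hn1, hn2⟩ := this
      refine ⟨Psi.nat n, ?_, n, rfl⟩
      by_contra h3
      exact hn2 ⟨hn1, h3⟩
  obtain ⟨F, hFD, hFc, -, hst⟩ := h 𝒰 h𝒰 hcov D hD
  refine ⟨fun n => if (Psi.nat n : Psi A) ∈ F then 1 else 0, fun a => ?_⟩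
  have hfin : {n : ℕ | n ∈ (a : Set ℕ) ∧
      (if (Psi.nat n : Psi A) ∈ F then 1 else 0) = 1}.Finite := by
    have hopen : IsOpen Fᶜ := hFc.isOpen_compl
    have ha : Psi.pt a ∈ Fᶜ := by
      intro hmem
      obtain ⟨n, hn⟩ := hFD hmem
      cases hn
    refine (hopen a ha).subset ?_
    intro n hn
    obtain ⟨h1, h2⟩ := hn
    refine ⟨h1, ?_⟩
    intro h3
    have h4 : (Psi.nat n : Psi A) ∉ F := h3
    rw [if_neg h4] at h2
    exact absurd h2 (by norm_num)
  have hmem : Psi.pt a ∈ ⋃₀ {U ∈ 𝒰 | (U ∩ F).Nonempty} := by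
    rw [hst]; trivial
  obtain ⟨U, ⟨hU, ⟨x, hxU, hxF⟩⟩, haU⟩ := hmem
  rcases hU with ⟨b, rfl⟩ | ⟨n, rfl⟩
  · have hab : a = b := by
      rcases haU with hb | ⟨n, hn, _⟩
      · exact Psi.pt.inj hb
      · cases hn
    subst hab
    rcases hxU with hx | ⟨n, rfl, hna, hfn⟩
    · subst hx
      obtain ⟨n, hn⟩ := hFD hxF
      cases hn
    · refine le_trans hfn (le_csSup hfin.bddAbove ⟨hna, ?_⟩)
      exact if_pos hxF
  · have : (Psi.pt a : Psi A) = Psi.nat n := haU
    cases this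

/-- Countable paracompactness of the Psi-space gives domination. -/
theorem dom_of_ctblyParacompact {A : Set (Set ℕ)} (hA : IsAD A)
    (h : CtblyParacompact (Psi A)) : Dom A := by
  classical
  refine ⟨fun g a => sSup (g '' (a : Set ℕ)), fun f => ?_⟩
  let U : ℕ → Set (Psi A) := fun m => {x | ∀ a : A, x = Psi.pt a → f a ≤ m}
  have hU : ∀ m, IsOpen (U m) := by
    intro m a _
    refine Set.finite_empty.subset ?_
    intro n hn
    refine absurd ?_ hn.2
    intro b hb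
    cases hb
  have hcov : ⋃ m, U m = Set.univ := by
    refine Set.eq_univ_of_forall fun x => ?_
    rw [Set.mem_iUnion]
    rcases x with n | a
    · refine ⟨0, ?_⟩
      intro b hb
      cases hb
    · refine ⟨f a, ?_⟩
      intro b hb
      have : a = b := Psi.pt.inj hb
      rw [this]
  obtain ⟨𝒱, hVo, hVc, hVr, hVl⟩ := h U hU hcov
  -- the index of a member of the refinement
  let ind : Set (Psi A) → ℕ := fun V => sInf {n | V ⊆ U n}
  have hind : ∀ V ∈ 𝒱, V ⊆ U (ind V) := fun V hV => Nat.sInf_mem (hVr V hV)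
  let g : ℕ → ℕ := fun k => sSup (ind '' {V ∈ 𝒱 | Psi.nat k ∈ V})
  have hgb : ∀ k, BddAbove (ind '' {V ∈ 𝒱 | Psi.nat k ∈ V}) := by
    intro k
    obtain ⟨W, -, hkW, hWf⟩ := hVl (Psi.nat k)
    refine ((hWf.subset ?_).image ind).bddAbove
    intro V hV
    exact ⟨hV.1, ⟨_, hV.2, hkW⟩⟩
  refine ⟨g, fun a => ?_⟩
  -- `g` is bounded on `a`
  have hbdd : BddAbove (g '' (a : Set ℕ)) := by
    obtain ⟨W, hWo, haW, hWf⟩ := hVl (Psi.pt a)
    have hfin := hWo a haW
    obtain ⟨M1, hM1⟩ := (hWf.image ind).bddAbove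
    obtain ⟨M2, hM2⟩ := (hfin.image g).bddAbove
    refine ⟨max M1 M2, ?_⟩
    rintro _ ⟨k, hk, rfl⟩
    by_cases hkW : (Psi.nat k : Psi A) ∈ W
    · refine le_trans ?_ (le_max_left _ _)
      apply csSup_le'
      rintro _ ⟨V, ⟨hV, hkV⟩, rfl⟩
      exact hM1 ⟨V, ⟨hV, ⟨_, hkV, hkW⟩⟩, rfl⟩
    · refine le_trans ?_ (le_max_right _ _)
      exact hM2 ⟨k, ⟨hk, hkW⟩, rfl⟩
  -- some member of the refinement contains the point `a`
  have hmem : Psi.pt a ∈ ⋃₀ 𝒱 := by rw [hVc]; trivial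
  obtain ⟨V, hV, haV⟩ := hmem
  have hfa : f a ≤ ind V := hind V hV haV a rfl
  have hfin := hVo V hV a haV
  have : ((a : Set ℕ) \ {n : ℕ | n ∈ (a : Set ℕ) ∧ (Psi.nat n : Psi A) ∉ V}).Nonempty :=
    ((hA.1 a a.2).sdiff hfin).nonempty
  obtain ⟨k, hk1, hk2⟩ := this
  have hkV : (Psi.nat k : Psi A) ∈ V := by
    by_contra h3
    exact hk2 ⟨hk1, h3⟩
  calc f a ≤ ind V := hfa
    _ ≤ g k := le_csSup (hgb k) ⟨V, ⟨hV, hkV⟩, rfl⟩
    _ ≤ sSup (g '' (a : Set ℕ)) := le_csSup hbdd ⟨k, hk1, rfl⟩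

end Run7.h748
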