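import Pool.Agent.Run7.h748.Core

/-!
Separating families: transport, and the basic fact that for infinite `K` and
`#Z ≤ #K` there are `K` many functions `Z → ℕ` such that every infinite subset of `Z` has
infinite image under one of them.
-/

namespace Run7.h748

open Cardinal

theorem Sep.of_index {K K' Z V : Type} [Nonempty K] (h : Sep K Z V) (e : K → K')
    (he : Function.Injective e) : Sep K' Z V := by
  classical
  obtain ⟨η, hη⟩ := h
  refine ⟨fun k' => η (Function.invFun e k'), fun S hS => ?_⟩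
  obtain ⟨k, hk⟩ := hη S hS
  refine ⟨e k, ?_⟩
  simpa only [Function.leftInverse_invFun he k] using hk

theorem sep_step {K Z : Type} [Infinite K] [LinearOrder Z] (hle : #Z ≤ #K) (D : Set Z)
    (hD : ∀ a ∈ D, ∃ η : K → Z → ℕ, ∀ S ⊆ Set.Iio a, S.Infinite → ∃ k, (η k '' S).Infinite) :
    ∃ η : K → Z → ℕ, ∀ S ⊆ D, S.Infinite → ∃ k, (η k '' S).Infinite := by
  classical
  have hD' : ∀ a : Z, ∃ η : K → Z → ℕ, a ∈ D →
      ∀ S ⊆ Set.Iio a, S.Infinite → ∃ k, (η k '' S).Infinite := by
    intro a
    by_cases ha : a ∈ D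
    · obtain ⟨η, hη⟩ := hD a ha
      exact ⟨η, fun _ => hη⟩
    · exact ⟨fun _ _ => 0, fun h => absurd h ha⟩
  choose η hη using hD'
  have hidx : #(Option (K × Z)) ≤ #K := by
    have h1 : #(K × Z) ≤ #K := by
      rw [mk_prod, lift_id, lift_id]
      calc #K * #Z ≤ #K * #K := by gcongr
        _ = #K := mul_eq_self (aleph0_le_mk K)
    rw [mk_option]
    calc #(K × Z) + 1 ≤ #K + #K := add_le_add h1 (one_le_aleph0.trans (aleph0_le_mk K))
      _ = #K := add_eq_self (aleph0_le_mk K)
  obtain ⟨e⟩ := hidx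
  -- the extra coordinate
  have hn : ∃ nn : Z → ℕ, ∀ S ⊆ D, S.Infinite → (∀ a ∈ D, (S ∩ Set.Iio a).Finite) →
      (nn '' S).Infinite := by
    by_cases hcof : ∃ u : ℕ → Z, (∀ n, u n ∈ D) ∧ ∀ a ∈ D, ∃ n, a ≤ u n
    · obtain ⟨u, huD, hu⟩ := hcof
      refine ⟨fun z => if h : ∃ n, z ≤ u n then Nat.find h else 0, fun S hSD hS hfin => ?_⟩
      intro hcon
      obtain ⟨N, hN⟩ := hcon.bddAbove
      apply hS
      have hsub : S ⊆ ⋃ n ∈ Set.Iic N, (S ∩ Set.Iio (u n)) ∪ {u n} := by
        intro z hz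
        have hex : ∃ n, z ≤ u n := hu z (hSD hz)
        have h1 : (if h : ∃ n, z ≤ u n then Nat.find h else 0) ≤ N := hN ⟨z, hz, rfl⟩
        rw [dif_pos hex] at h1
        have h2 := Nat.find_spec hex
        refine Set.mem_biUnion (x := Nat.find hex) h1 ?_
        rcases lt_or_eq_of_le h2 with h3 | h3
        · exact Or.inl ⟨hz, h3⟩
        · exact Or.inr h3
      refine Set.Finite.subset ?_ hsub
      refine (Set.finite_Iic N).biUnion fun n _ => ?_
      exact (hfin (u n) (huD n)).union (Set.finite_singleton _)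
    · refine ⟨fun _ => 0, fun S hSD hS hfin => ?_⟩
      exfalso
      apply hcof
      let e := hS.natEmbedding
      refine ⟨fun n => (e n : Z), fun n => hSD (e n).2, fun a ha => ?_⟩
      by_contra hall
      push Not at hall
      have hinj : Function.Injective (fun n => (e n : Z)) := fun n m hnm =>
        e.injective (Subtype.ext hnm)
      refine Set.infinite_range_of_injective hinj ((hfin a ha).subset ?_)
      rintro _ ⟨n, rfl⟩
      exact ⟨(e n).2, hall n⟩
  obtain ⟨nn, hnn⟩ := hn
  let ζ : Option (K × Z) → Z → ℕ := fun o z =>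
    match o with
    | none => nn z
    | some (k, a) => if z < a then η a k z else 0
  have hζ : ∀ S ⊆ D, S.Infinite → ∃ o, (ζ o '' S).Infinite := by
    intro S hSD hS
    by_cases hcase : ∃ a ∈ D, (S ∩ Set.Iio a).Infinite
    · obtain ⟨a, ha, hinf⟩ := hcase
      obtain ⟨k, hk⟩ := hη a ha _ Set.inter_subset_right hinf
      refine ⟨some (k, a), hk.mono ?_⟩
      rintro _ ⟨z, ⟨hzS, hza⟩, rfl⟩
      exact ⟨z, hzS, if_pos hza⟩
    · push Not at hcase
      refine ⟨none, hnn S hSD hS fun a ha => ?_⟩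
      exact hcase a ha
  have : Nonempty (Option (K × Z)) := ⟨none⟩
  refine ⟨fun k => ζ (Function.invFun e k), fun S hSD hS => ?_⟩
  obtain ⟨o, ho⟩ := hζ S hSD hS
  refine ⟨e o, ?_⟩
  simpa only [Function.leftInverse_invFun e.injective o] using ho

/-- For infinite `K` and `#Z ≤ #K` there are `K` many functions `Z → ℕ` such that every
infinite subset of `Z` has infinite image under one of them. -/
theorem sep_of_mk_le {K Z : Type} [Infinite K] (hle : #Z ≤ #K) : Sep K Z ℕ := by
  classical
  let _ : LinearOrder Z := linearOrderOfSTO (WellOrderingRel (α := Z))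
  have wf : WellFounded (fun a b : Z => a < b) :=
    (inferInstance : IsWellFounded Z WellOrderingRel).wf
  have hall : ∀ a : Z, ∃ η : K → Z → ℕ, ∀ S ⊆ Set.Iio a, S.Infinite →
      ∃ k, (η k '' S).Infinite := by
    intro a
    induction a using wf.induction with
    | _ a ih => exact sep_step hle (Set.Iio a) (fun d hd => ih d hd)
  obtain ⟨η, hη⟩ := sep_step hle (Set.univ : Set Z) (fun d _ => hall d)
  exact ⟨η, fun S hS => hη S (Set.subset_univ _) hS⟩

end Run7.h748
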