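import Pool.Agent.Run7.h748.Bounds

/-!
The structure theorem for large dominated families, and the cofinality argument.
-/

namespace Run7.h748

open Cardinal Filter

theorem mk_Iic_ord_lt {ν : Cardinal.{0}} (hinf : ℵ₀ ≤ ν) (a : ν.ord.ToType) :
    #(Set.Iic a) < ν := by
  have h1 : Set.Iic a ⊆ Set.Iio a ∪ {a} := by
    intro y hy
    rcases lt_or_eq_of_le (Set.mem_Iic.1 hy) with h2 | h2
    · exact Or.inl h2
    · exact Or.inr h2
  refine (mk_le_mk_of_subset h1).trans_lt ?_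
  refine (mk_union_le _ _).trans_lt ?_
  have h3 : #(Set.Iio a) < ν := by
    have h := mk_Iio_lt (α := ν.ord.ToType) a (by simp)
    simpa using h
  exact add_lt_of_lt hinf h3 (by simpa using one_lt_aleph0.trans_le hinf)

/-- If the cofinality of the continuum is at most `#J` and the function space of `J` is
dominated by continuum many functions, then it is dominated by fewer. -/
theorem dominating_lt_continuum {J : Type} (hJ : ℵ₀ ≤ #J)
    (hcof : ((2 : Cardinal.{0}) ^ ℵ₀).ord.cof ≤ #J) (h : Dom J) :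
    ∃ D : Set (J → ℕ), #D < 2 ^ ℵ₀ ∧ ∀ f : J → ℕ, ∃ g ∈ D, ∀ j, f j ≤ g j := by
  classical
  obtain ⟨Φ, hΦ⟩ := h.prod_self hJ
  let Y : Type := ((2 : Cardinal.{0}) ^ ℵ₀).ord.ToType
  have hY : #Y = #(ℕ → ℕ) := by simp [Y]
  obtain ⟨e⟩ := Cardinal.eq.1 hY
  obtain ⟨s, hs, hscard⟩ := Order.exists_cof_eq (α := Y)
  rw [Ordinal.cof_toType] at hscard
  have hsJ : #s ≤ #J := hscard.trans_le hcof
  have hYne : Nonempty Y := ⟨e.symm fun _ => 0⟩
  have hsne : Nonempty s := by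
    obtain ⟨y⟩ := hYne
    obtain ⟨b, hb, -⟩ := hs y
    exact ⟨⟨b, hb⟩⟩
  obtain ⟨i⟩ := hsJ
  let u : J → s := Function.invFun i
  have hu : Function.Surjective u := Function.invFun_surjective i.injective
  by_contra hcon
  push Not at hcon
  have hnot : ∀ i : J, ∃ f : J → ℕ, ∀ y : Y, y ≤ (u i : Y) → ∃ j, Φ (e y) (i, j) < f j := by
    intro i
    have hlt : #((fun y : Y => fun j => Φ (e y) (i, j)) '' Set.Iic (u i : Y)) < 2 ^ ℵ₀ := by
      refine mk_image_le.trans_lt ?_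
      exact mk_Iic_ord_lt (cantor ℵ₀).le _
    obtain ⟨f, hf⟩ := hcon _ hlt
    refine ⟨f, fun y hy => ?_⟩
    exact hf _ ⟨y, hy, rfl⟩
  choose f hf using hnot
  obtain ⟨w, hw⟩ := hΦ (fun p => f p.1 p.2)
  obtain ⟨b, hb, hyb⟩ := hs (e.symm w)
  obtain ⟨i, hi⟩ := hu ⟨b, hb⟩
  obtain ⟨j, hj⟩ := hf i (e.symm w) (by rw [hi]; exact hyb)
  rw [Equiv.apply_symm_apply] at hj
  exact absurd (hw (i, j)) (not_le.2 hj)

/-- The dominating number. -/
noncomputable def dNum : Cardinal.{0} :=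
  sInf {κ | ∃ D : Set (ℕ → ℕ), #D = κ ∧ ∀ f : ℕ → ℕ, ∃ g ∈ D, ∀ᶠ n in atTop, f n ≤ g n}

theorem dNum_le_of_dominating {J : Type} (hJ : ℵ₀ ≤ #J) (D : Set (J → ℕ))
    (hD : ∀ f : J → ℕ, ∃ g ∈ D, ∀ j, f j ≤ g j) : dNum ≤ #D := by
  classical
  have : #ℕ ≤ #J := by simpa using hJ
  obtain ⟨i⟩ := this
  refine le_trans (csInf_le' (?_ : #((fun g : J → ℕ => fun n => g (i n)) '' D) ∈ _)) mk_image_le
  refine ⟨_, rfl, fun f => ?_⟩
  obtain ⟨g, hg, hfg⟩ := hD (fun j => if hj : ∃ n, i n = j then f hj.choose else 0)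
  refine ⟨_, ⟨g, hg, rfl⟩, Eventually.of_forall fun n => ?_⟩
  have h1 := hfg (i n)
  have h2 : ∃ m, i m = i n := ⟨n, rfl⟩
  rw [dif_pos h2] at h1
  have h3 : h2.choose = n := i.injective h2.choose_spec
  rw [h3] at h1
  exact h1

/-- A type of cardinality `ℵ₁`. -/
def T1 : Type := (ℵ₁ : Cardinal.{0}).out

theorem mk_T1 : #T1 = ℵ₁ := mk_out _

/-- The structure theorem. -/
theorem structure_of_dom (h : (2 : Cardinal.{0}) ^ ℵ₀ < 2 ^ ℵ₁) {J : Type} (hJ : ℵ₁ ≤ #J)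
    (hdom : Dom J) :
    ∃ l : Cardinal.{0}, #J < l ∧ l ≤ 2 ^ ℵ₀ ∧ l.ord.cof = ℵ₁ ∧
      (∀ D : Set (J → ℕ), l ≤ #D → ∀ ν < l, ∃ Φ : J → ℕ, ν < #{x | x ∈ D ∧ ∀ j, x j ≤ Φ j}) ∧
      (∀ C : (ℕ → ℕ) → Set l.ord.ToType, (∀ y, #(C y) < l) →
        ∃ X : Set l.ord.ToType, #X ≤ ℵ₁ ∧ ∀ y, ¬ X ⊆ C y) ∧
      (l = 2 ^ ℵ₀ → ∃ D : Set (J → ℕ), #D < 2 ^ ℵ₀ ∧ ∀ f : J → ℕ, ∃ g ∈ D, ∀ j, f j ≤ g j) := by
  classical
  have hJ0 : ℵ₀ ≤ #J := (aleph0_le_aleph 1).trans hJ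
  have hT1J : #T1 ≤ #J := mk_T1.trans_le hJ
  obtain ⟨iT⟩ := hT1J
  have hdomT : Dom (T1 × J) := by
    refine (hdom.prod_self hJ0).of_embedding (fun p => (iT p.1, p.2)) ?_
    rintro ⟨a, b⟩ ⟨c, d⟩ hcd
    simp only [Prod.mk.injEq] at hcd
    rw [iT.injective hcd.1, hcd.2]
  have hT1dom : Dom T1 := hdom.of_embedding iT iT.injective
  have hsmall : ∀ Z : Type, #Z ≤ #J → Slal T1 Z := by
    intro Z hZ
    have hinf : Infinite J := infinite_iff.2 hJ0
    exact (hdomT.slal).comp (sep_of_mk_le hZ)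
  -- the first failure
  let Bad : Set Cardinal.{0} := {ν | ¬ ∀ Z : Type, #Z ≤ ν → Slal T1 Z}
  have hcontbad : (2 : Cardinal.{0}) ^ ℵ₀ ∈ Bad := by
    intro hall
    have h1 : Slal T1 (ℕ → Bool) := hall _ (by simp)
    have h2 := two_power_le_of_slal h1
    rw [mk_T1] at h2
    exact absurd h (not_lt.2 h2)
  let l : Cardinal.{0} := sInf Bad
  have hl : l ∈ Bad := csInf_mem ⟨_, hcontbad⟩
  have hlc : l ≤ 2 ^ ℵ₀ := csInf_le' hcontbad
  have hgood : ∀ Z : Type, #Z < l → Slal T1 Z := by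
    intro Z hZ
    by_contra hcon
    refine absurd (csInf_le' (?_ : #Z ∈ Bad)) (not_le.2 hZ)
    intro hall
    exact hcon (hall Z le_rfl)
  have hJl : #J < l := by
    by_contra hcon
    push Not at hcon
    exact hl fun Z hZ => hsmall Z (hZ.trans hcon)
  have hcof : l.ord.cof = ℵ₁ := by
    by_contra hcon
    apply hl
    refine slal_one hT1dom.slal l (hJ0.trans hJl.le) hlc hgood ?_
    rintro ⟨h1, h2⟩
    rw [mk_T1] at h2
    exact hcon (le_antisymm h2 h1)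
  refine ⟨l, hJl, hlc, hcof, ?_, ?_, ?_⟩
  · intro D hD ν hν
    by_contra hcon
    push Not at hcon
    apply hl
    intro Z hZ
    obtain ⟨eZ⟩ := hZ.trans hD
    refine Slal.of_values (Z' := D) ?_ eZ eZ.injective
    obtain ⟨Φ, hΦ⟩ := hdomT
    obtain ⟨S', hS', hc'⟩ := hgood ν.out (by simpa using hν)
    -- injections of the bounded parts into a set of size `ν`
    have hinj : ∀ (y : ℕ → ℕ) (α : T1), ∃ g : (J → ℕ) → ν.out,
        Set.InjOn g {x | x ∈ D ∧ ∀ j, x j ≤ Φ y (α, j)} := by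
      intro y α
      have h1 : #{x | x ∈ D ∧ ∀ j, x j ≤ Φ y (α, j)} ≤ #(ν.out) := by
        simpa using hcon (fun j => Φ y (α, j))
      obtain ⟨e⟩ := h1
      by_cases hne : Nonempty ν.out
      · obtain ⟨n0⟩ := hne
        refine ⟨fun x => if hx : x ∈ {x | x ∈ D ∧ ∀ j, x j ≤ Φ y (α, j)} then e ⟨x, hx⟩ else n0,
          fun x hx x' hx' hxx => ?_⟩
        simp only [dif_pos hx, dif_pos hx'] at hxx
        exact congrArg Subtype.val (e.injective hxx)
      · -- then `D` has no element below `Φ y (α, ·)`; use emptiness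
        have hD0 : D.Nonempty := by
          by_contra hemp
          rw [Set.not_nonempty_iff_eq_empty] at hemp
          rw [hemp] at hD
          simp only [mk_eq_zero] at hD
          exact absurd (hJ0.trans_lt hJl) (not_lt.2 (hD.trans zero_le))
        obtain ⟨x0, hx0⟩ := hD0
        exfalso
        have h2 := hcon x0
        have h3 : ν = 0 := by
          have := mk_eq_zero_iff.2 (not_nonempty_iff.1 hne)
          simpa using this
        rw [h3] at h2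
        have h4 : #{x | x ∈ D ∧ ∀ j, x j ≤ x0 j} = 0 := le_antisymm h2 zero_le
        rw [mk_eq_zero_iff] at h4
        exact h4.false ⟨x0, hx0, fun j => le_rfl⟩
    choose g hg using hinj
    refine Slal.of_cover (Y := (ℕ → ℕ) × (ℕ → ℕ)) ?_
      (fun p α => {x : D | (∀ j, x.1 j ≤ Φ p.1 (α, j)) ∧ g p.1 α x.1 ∈ S' p.2 α}) ?_ ?_
    · rw [mk_prod, lift_id, mk_fun_nat_nat]
      simp
    · intro p α
      have hfin : {x : D | (∀ j, x.1 j ≤ Φ p.1 (α, j)) ∧ g p.1 α x.1 ∈ S' p.2 α}.Finite := by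
        refine Set.Finite.of_finite_image ((hS' p.2 α).subset ?_ :
          ((fun x : D => g p.1 α x.1) '' _).Finite) ?_
        · rintro _ ⟨x, hx, rfl⟩
          exact hx.2
        · intro x hx x' hx' hxx
          exact Subtype.ext (hg p.1 α ⟨x.2, hx.1⟩ ⟨x'.2, hx'.1⟩ hxx)
      exact hfin
    · intro f
      obtain ⟨y, hy⟩ := hΦ (fun p => (f p.1).1 p.2)
      obtain ⟨y', hy'⟩ := hc' (fun α => g y α (f α).1)
      exact ⟨(y, y'), fun α => ⟨fun j => hy (α, j), hy' α⟩⟩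
  · intro C hC
    by_contra hcon
    push Not at hcon
    apply hl
    intro Z hZ
    have hZ' : #Z ≤ #(l.ord.ToType) := by simpa using hZ
    obtain ⟨eZ⟩ := hZ'
    refine Slal.of_values (Z' := l.ord.ToType) ?_ eZ eZ.injective
    choose S hS hc using fun y => hgood (C y) (hC y)
    refine Slal.of_cover (Y := (ℕ → ℕ) × (ℕ → ℕ)) ?_
      (fun p α => Subtype.val '' S p.1 p.2 α) ?_ ?_
    · rw [mk_prod, lift_id, mk_fun_nat_nat]
      simp
    · intro p α
      exact (hS p.1 p.2 α).image _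
    · intro f
      obtain ⟨y, hy⟩ := hcon (Set.range f) (mk_range_le.trans mk_T1.le)
      obtain ⟨y', hy'⟩ := hc y (fun α => ⟨f α, hy ⟨α, rfl⟩⟩)
      exact ⟨(y, y'), fun α => ⟨_, hy' α, rfl⟩⟩
  · intro hlc'
    refine dominating_lt_continuum hJ0 ?_ hdom
    rw [← hlc', hcof]
    exact hJ

end Run7.h748
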