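import Pool.Agent.Run7.h748.SepOrd

/-!
Upward propagation of finite slaloms along cardinals: the first failure has uncountable
cofinality at most the size of the index set.
-/

namespace Run7.h748

open Cardinal

/-- A cover by finite slaloms indexed by any type of size at most continuum suffices. -/
theorem Slal.of_cover {J Z Y : Type} (hY : #Y ≤ 2 ^ ℵ₀) (S : Y → J → Set Z)
    (hS : ∀ y j, (S y j).Finite) (hc : ∀ h : J → Z, ∃ y, ∀ j, h j ∈ S y j) : Slal J Z := by
  classical
  have hle : #Y ≤ #(ℕ → ℕ) := by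
    refine hY.trans ?_
    simp
  obtain ⟨e⟩ := hle
  by_cases hne : Nonempty Y
  · refine ⟨fun w => S (Function.invFun e w), fun w j => hS _ _, fun h => ?_⟩
    obtain ⟨y, hy⟩ := hc h
    refine ⟨e y, ?_⟩
    simpa only [Function.leftInverse_invFun e.injective y] using hy
  · refine ⟨fun _ _ => ∅, fun _ _ => Set.finite_empty, fun h => ?_⟩
    obtain ⟨y, -⟩ := hc h
    exact absurd ⟨y⟩ hne

theorem mk_fun_nat_nat : #(ℕ → ℕ) = 2 ^ ℵ₀ := by simp

theorem mk_seq_fun : #(ℕ → (ℕ → ℕ)) = 2 ^ ℵ₀ := by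
  simp

/-- Bounded case: every function from `J` to `Z` is bounded. -/
theorem slal_of_bounded {J Z : Type} [LinearOrder Z] (hZ : #Z ≤ 2 ^ ℵ₀)
    (hb : ∀ h : J → Z, ∃ a, ∀ j, h j < a) (hI : ∀ a : Z, Slal J (Set.Iio a)) : Slal J Z := by
  classical
  choose S hS hc using hI
  refine Slal.of_cover (Y := (ℕ → ℕ) × Z) ?_ (fun p j => Subtype.val '' S p.2 p.1 j) ?_ ?_
  · rw [mk_prod, lift_id, lift_id, mk_fun_nat_nat]
    calc (2 : Cardinal) ^ ℵ₀ * #Z ≤ 2 ^ ℵ₀ * 2 ^ ℵ₀ := by gcongr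
      _ = 2 ^ ℵ₀ := by simp
  · intro p j
    exact (hS p.2 p.1 j).image _
  · intro h
    obtain ⟨a, ha⟩ := hb h
    obtain ⟨y, hy⟩ := hc a (fun j => ⟨h j, ha j⟩)
    exact ⟨(y, a), fun j => ⟨_, hy j, rfl⟩⟩

/-- Countable cofinality case. -/
theorem slal_of_countable_cofinal {J Z : Type} [LinearOrder Z] (hJ : Slal J ℕ)
    (u : ℕ → Z) (hu : ∀ z, ∃ n, z < u n) (hI : ∀ a : Z, Slal J (Set.Iio a)) : Slal J Z := by
  classical
  choose S hS hc using hI
  obtain ⟨T, hT, hTc⟩ := hJ
  refine Slal.of_cover (Y := (ℕ → ℕ) × (ℕ → (ℕ → ℕ))) ?_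
    (fun p j => ⋃ n ∈ T p.1 j, Subtype.val '' S (u n) (p.2 n) j) ?_ ?_
  · rw [mk_prod, lift_id, lift_id, mk_fun_nat_nat, mk_seq_fun]
    simp
  · intro p j
    exact (hT p.1 j).biUnion fun n _ => (hS (u n) (p.2 n) j).image _
  · intro h
    choose nn hnn using fun j => hu (h j)
    obtain ⟨y, hy⟩ := hTc nn
    by_cases hJ' : Nonempty J
    · obtain ⟨j0⟩ := hJ'
      have hex : ∀ n, ∃ w : ℕ → ℕ, ∀ j, h j < u n → h j ∈ Subtype.val '' S (u n) w j := by
        intro n
        by_cases hne : ∃ z, z < u n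
        · obtain ⟨z, hz⟩ := hne
          obtain ⟨w, hw⟩ := hc (u n) (fun j => if hj : h j < u n then ⟨h j, hj⟩ else ⟨z, hz⟩)
          refine ⟨w, fun j hj => ⟨⟨h j, hj⟩, ?_, rfl⟩⟩
          have := hw j
          rwa [dif_pos hj] at this
        · exact ⟨fun _ => 0, fun j hj => absurd ⟨_, hj⟩ hne⟩
      choose w hw using hex
      refine ⟨(y, w), fun j => ?_⟩
      exact Set.mem_biUnion (hy j) (hw (nn j) j (hnn j))
    · exact ⟨(fun _ => 0, fun _ _ => 0), fun j => absurd ⟨j⟩ hJ'⟩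

/-- One step of the upward propagation: if all functions from `J` to sets of size less than `ν`
are covered by continuum many finite slaloms, and the cofinality of `ν` is either countable or
larger than `#J`, then the same holds for sets of size at most `ν ≤ 2 ^ ℵ₀`. -/
theorem slal_one {J : Type} (hJ : Slal J ℕ) (ν : Cardinal.{0}) (hinf : ℵ₀ ≤ ν)
    (hν : ν ≤ 2 ^ ℵ₀) (ih : ∀ Z : Type, #Z < ν → Slal J Z)
    (hno : ¬ (ℵ₁ ≤ ν.ord.cof ∧ ν.ord.cof ≤ #J)) :
    ∀ Z : Type, #Z ≤ ν → Slal J Z := by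
  classical
  intro Z hZ
  -- work with the initial ordinal of `ν`
  suffices hmain : Slal J ν.ord.ToType by
    have h1 : #Z ≤ #(ν.ord.ToType) := by simpa using hZ
    obtain ⟨e⟩ := h1
    exact hmain.of_values e e.injective
  have hIlt : ∀ a : ν.ord.ToType, #(Set.Iio a) < ν := by
    intro a
    have h := mk_Iio_lt (α := ν.ord.ToType) a (by simp)
    simpa using h
  have hI : ∀ a : ν.ord.ToType, Slal J (Set.Iio a) := fun a => ih _ (hIlt a)
  by_cases hcof : #J < ν.ord.cof
  · refine slal_of_bounded (by simpa using hν) ?_ hI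
    intro h
    by_contra hcon
    push Not at hcon
    have hc : IsCofinal (Set.range h) := by
      intro a
      obtain ⟨j, hj⟩ := hcon a
      exact ⟨h j, ⟨j, rfl⟩, hj⟩
    have h1 : Order.cof (ν.ord.ToType) ≤ #(Set.range h) := Order.cof_le hc
    rw [Ordinal.cof_toType] at h1
    exact absurd (h1.trans mk_range_le) (not_le.2 hcof)
  · push Not at hcof
    have hcof' : ν.ord.cof < ℵ₁ := by
      by_contra h1
      push Not at h1
      exact hno ⟨h1, hcof⟩
    obtain ⟨s, hs, hscard⟩ := Order.exists_cof_eq (α := ν.ord.ToType)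
    rw [Ordinal.cof_toType] at hscard
    have hscount : s.Countable := by
      rw [← le_aleph0_iff_set_countable, hscard]
      have : ℵ₁ = Order.succ ℵ₀ := succ_aleph0.symm
      rw [this] at hcof'
      exact Order.lt_succ_iff.1 hcof'
    have hne : Nonempty (ν.ord.ToType) := by
      rw [← mk_ne_zero_iff]
      simp only [mk_toType, card_ord]
      exact (aleph0_pos.trans_le hinf).ne'
    have hnomax : ∀ a : ν.ord.ToType, ∃ b, a < b := by
      intro a
      by_contra hcon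
      push Not at hcon
      have h1 : (Set.univ : Set ν.ord.ToType) ⊆ Set.Iio a ∪ {a} := by
        intro b _
        rcases lt_or_eq_of_le (hcon b) with h2 | h2
        · exact Or.inl h2
        · exact Or.inr h2
      have h2 : #(ν.ord.ToType) < ν := by
        rw [← mk_univ]
        refine (mk_le_mk_of_subset h1).trans_lt ?_
        refine (mk_union_le _ _).trans_lt ?_
        exact add_lt_of_lt hinf (hIlt a)
          (by simpa using one_lt_aleph0.trans_le hinf)
      simp at h2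
    have hsne : s.Nonempty := by
      obtain ⟨a⟩ := hne
      obtain ⟨b, hb, -⟩ := hs a
      exact ⟨b, hb⟩
    obtain ⟨u, hu⟩ := hscount.exists_eq_range hsne
    refine slal_of_countable_cofinal hJ u ?_ hI
    intro z
    obtain ⟨b, hb⟩ := hnomax z
    obtain ⟨c, hc, hbc⟩ := hs b
    rw [hu] at hc
    obtain ⟨n, rfl⟩ := hc
    exact ⟨n, hb.trans_le hbc⟩

/-- Upward propagation. If all functions from `J` to sets of size at most `κ` are covered by
continuum many finite slaloms, and there is no cardinal `l` with `κ < l ≤ ν` whose cofinality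
lies between `ℵ₁` and `#J`, then the same holds for sets of size at most `ν ≤ 2 ^ ℵ₀`. -/
theorem slal_up {J : Type} (hJ : Slal J ℕ) (κ : Cardinal.{0}) (hκ : ℵ₀ ≤ κ)
    (hbase : ∀ Z : Type, #Z ≤ κ → Slal J Z) (ν : Cardinal.{0}) (hν : ν ≤ 2 ^ ℵ₀)
    (hno : ¬ ∃ l : Cardinal.{0}, κ < l ∧ l ≤ ν ∧ ℵ₁ ≤ l.ord.cof ∧ l.ord.cof ≤ #J) :
    ∀ Z : Type, #Z ≤ ν → Slal J Z := by
  classical
  induction ν using WellFoundedLT.induction with
  | _ ν ih =>
    intro Z hZ
    by_cases hνκ : ν ≤ κ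
    · exact hbase Z (hZ.trans hνκ)
    · push Not at hνκ
      refine slal_one hJ ν (hκ.trans hνκ.le) hν ?_ ?_ Z hZ
      · intro Z' hZ'
        refine ih #Z' hZ' (hZ'.le.trans hν) ?_ Z' le_rfl
        rintro ⟨l, h1, h2, h3, h4⟩
        exact hno ⟨l, h1, h2.trans hZ'.le, h3, h4⟩
      · rintro ⟨h1, h2⟩
        exact hno ⟨ν, hνκ, le_rfl, h1, h2⟩

end Run7.h748
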